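import Mathlib
import Pool.Agent.Helper722.RR.Newton

/-! Elementary symmetric functions of the eigenvalues of a real symmetric matrix:
monotonicity on the Garding cone. -/

open Polynomial Matrix

namespace Pool.Agent.P8H67.KH

variable {ι : Type*} [Fintype ι] [DecidableEq ι]

/-- the `k`-th elementary symmetric function of the roots of the characteristic polynomial -/
noncomputable def sig (k : ℕ) (A : Matrix ι ι ℝ) : ℝ := A.charpoly.roots.esymm k

/-- the polynomial `det (X + A)` -/
noncomputable def gp (A : Matrix ι ι ℝ) : ℝ[X] := (-A).charpoly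

lemma eval_gp (A : Matrix ι ι ℝ) (s : ℝ) :
    (gp A).eval s = (s • (1 : Matrix ι ι ℝ) + A).det := by
  rw [gp, Matrix.eval_charpoly]
  congr 1
  ext i j
  simp [Matrix.scalar_apply, Matrix.smul_apply, Matrix.one_apply, Matrix.diagonal_apply]

lemma gp_eq {A : Matrix ι ι ℝ} (hA : A.IsHermitian) :
    gp A = ∏ i, (X + C (hA.eigenvalues i)) := by
  apply Polynomial.funext
  intro s
  rw [eval_gp, eval_prod]
  have h1 : ((-s) • (1 : Matrix ι ι ℝ) - A).det = ∏ i, (-s - hA.eigenvalues i) := by
    have h := Matrix.eval_charpoly A (-s)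
    rw [hA.charpoly_eq, eval_prod] at h
    have h2 : (Matrix.scalar ι) (-s) = (-s) • (1 : Matrix ι ι ℝ) := by
      ext i j
      simp [Matrix.scalar_apply, Matrix.smul_apply, Matrix.one_apply, Matrix.diagonal_apply]
    rw [h2] at h
    rw [← h]
    simp
  have h3 : s • (1 : Matrix ι ι ℝ) + A = -((-s) • (1 : Matrix ι ι ℝ) - A) := by
    ext i j; simp; ring
  rw [h3, Matrix.det_neg, h1, ← Finset.card_univ, ← Finset.prod_const, ← Finset.prod_mul_distrib]
  apply Finset.prod_congr rfl
  intro i _
  simp; ring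

lemma sig_eq_esymm {A : Matrix ι ι ℝ} (hA : A.IsHermitian) (k : ℕ) :
    sig k A = (Finset.univ.val.map hA.eigenvalues).esymm k := by
  rw [sig, hA.roots_charpoly_eq_eigenvalues]
  rfl

lemma sig_eq_coeff {A : Matrix ι ι ℝ} (hA : A.IsHermitian) {k : ℕ} (hk : k ≤ Fintype.card ι) :
    sig k A = (gp A).coeff (Fintype.card ι - k) := by
  rw [sig_eq_esymm hA, gp_eq hA]
  have h := Multiset.prod_X_add_C_coeff' (Finset.univ : Finset ι).val hA.eigenvalues
    (k := Fintype.card ι - k) (by simp)
  have h2 : (Multiset.map (fun i => X + C (hA.eigenvalues i)) (Finset.univ : Finset ι).val).prod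
      = ∏ i, (X + C (hA.eigenvalues i)) := rfl
  rw [h2] at h
  rw [h]
  congr 1
  simp only [Finset.card_val, Finset.card_univ]
  omega

/-- the coefficients of the generating polynomial decide `sig` -/
lemma det_diag_rank_one (d c : ι → ℝ) (hd : ∀ i, d i ≠ 0) :
    (Matrix.diagonal d + Matrix.vecMulVec c c).det =
      ∏ i, d i + ∑ i, c i ^ 2 * ∏ j ∈ Finset.univ.erase i, d j := by
  have hdet : IsUnit (Matrix.diagonal d).det := by
    rw [Matrix.det_diagonal, isUnit_iff_ne_zero]
    exact Finset.prod_ne_zero_iff.2 fun i _ => hd i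
  have h := Matrix.det_add_replicateCol_mul_replicateRow (ι := Unit) hdet c c
  have h0 : Matrix.replicateCol Unit c * Matrix.replicateRow Unit c = Matrix.vecMulVec c c := by
    ext i j
    simp [Matrix.mul_apply, Matrix.vecMulVec_apply]
  rw [h0] at h
  rw [h, Matrix.det_diagonal]
  have h1 : (1 + Matrix.replicateRow Unit c * (Matrix.diagonal d)⁻¹ *
      Matrix.replicateCol Unit c).det = 1 + ∑ i, c i ^ 2 / d i := by
    have hinv : (Matrix.diagonal d)⁻¹ = Matrix.diagonal fun i => (d i)⁻¹ := by
      apply Matrix.inv_eq_right_inv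
      rw [Matrix.diagonal_mul_diagonal]
      ext i j
      by_cases hij : i = j
      · subst hij; simp [hd i]
      · simp [hij]
    rw [hinv, Matrix.det_unique]
    rw [Matrix.add_apply, Matrix.one_apply_eq, Matrix.mul_apply]
    congr 1
    apply Finset.sum_congr rfl
    intro i _
    rw [Matrix.mul_diagonal, Matrix.replicateRow_apply, Matrix.replicateCol_apply]
    have := hd i
    field_simp
  rw [h1, mul_add, mul_one, Finset.mul_sum]
  congr 1
  apply Finset.sum_congr rfl
  intro i _
  rw [← Finset.mul_prod_erase Finset.univ d (Finset.mem_univ i)]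
  have := hd i
  field_simp

/-- rank one update of the generating polynomial -/
lemma gp_rank_one {A : Matrix ι ι ℝ} (hA : A.IsHermitian) (v : ι → ℝ) :
    ∃ c : ι → ℝ, gp (A + Matrix.vecMulVec v v) = gp A +
      ∑ i, C (c i ^ 2) * ∏ j ∈ Finset.univ.erase i, (X + C (hA.eigenvalues j)) := by
  set U : Matrix ι ι ℝ := (hA.eigenvectorUnitary : Matrix ι ι ℝ) with hU
  have hU1 : U * star U = 1 := Unitary.mul_star_self_of_mem hA.eigenvectorUnitary.2
  have hU2 : star U * U = 1 := Unitary.star_mul_self_of_mem hA.eigenvectorUnitary.2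
  have hspec : A = U * Matrix.diagonal hA.eigenvalues * star U := by
    conv_lhs => rw [hA.spectral_theorem]
    rfl
  refine ⟨(star U) *ᵥ v, ?_⟩
  set c := (star U) *ᵥ v with hc
  apply Polynomial.eq_of_infinite_eval_eq
  obtain ⟨s0, hs0⟩ : ∃ s0 : ℝ, ∀ s, s0 < s → ∀ i, s + hA.eigenvalues i ≠ 0 := by
    refine ⟨∑ i, |hA.eigenvalues i|, fun s hs i => ?_⟩
    have h1 : |hA.eigenvalues i| ≤ ∑ i, |hA.eigenvalues i| :=
      Finset.single_le_sum (f := fun i => |hA.eigenvalues i|) (fun i _ => abs_nonneg _)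
        (Finset.mem_univ i)
    have h2 := neg_abs_le (hA.eigenvalues i)
    intro h
    linarith
  refine (Set.Ioi_infinite s0).mono ?_
  intro s hs
  have hs' := hs0 s hs
  simp only [Set.mem_ofPred_eq]
  rw [eval_gp, eval_add, eval_finsetSum, gp_eq hA, eval_prod]
  have key : s • (1 : Matrix ι ι ℝ) + (A + Matrix.vecMulVec v v) =
      U * (Matrix.diagonal (fun i => s + hA.eigenvalues i) + Matrix.vecMulVec c c) * star U := by
    have e1 : Matrix.diagonal (fun i => s + hA.eigenvalues i) =
        s • (1 : Matrix ι ι ℝ) + Matrix.diagonal hA.eigenvalues := by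
      ext i j
      by_cases hij : i = j
      · subst hij; simp
      · simp [hij]
    have e2 : U * Matrix.vecMulVec c c * star U = Matrix.vecMulVec v v := by
      rw [hc, Matrix.mul_vecMulVec, Matrix.vecMulVec_mul, Matrix.mulVec_mulVec, hU1,
        Matrix.one_mulVec]
      congr 1
      have e3 : (star U *ᵥ v) = v ᵥ* U := by
        rw [Matrix.star_eq_conjTranspose, Matrix.conjTranspose_eq_transpose_of_trivial,
          Matrix.mulVec_transpose]
      rw [e3, Matrix.vecMul_vecMul, hU1, Matrix.vecMul_one]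
    rw [mul_add, add_mul, e1, mul_add, add_mul, e2, ← hspec]
    rw [Matrix.mul_smul, Matrix.smul_mul, mul_one, hU1]
    abel
  rw [key, Matrix.det_mul, Matrix.det_mul]
  have hdU : U.det * (star U).det = 1 := by rw [← Matrix.det_mul, hU1, Matrix.det_one]
  rw [mul_comm U.det, mul_assoc, hdU, mul_one, det_diag_rank_one _ _ hs']
  simp [eval_prod]

/-- if the first `k` elementary symmetric functions of `lam` are positive, then so are the
first `k - 1` of the family with one entry removed (weak form of Newton's inequality) -/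
lemma erase_pos (lam : ι → ℝ) (k : ℕ) (hk : k ≤ Fintype.card ι)
    (hpos : ∀ j, 1 ≤ j → j ≤ k → 0 < (∏ i, (X + C (lam i))).coeff (Fintype.card ι - j)) (i : ι) :
    ∀ j, j + 1 ≤ k →
      0 < (∏ l ∈ Finset.univ.erase i, (X + C (lam l))).coeff (Fintype.card ι - 1 - j) := by
  set R := ∏ l ∈ Finset.univ.erase i, (X + C (lam l)) with hR
  set n := Fintype.card ι with hn
  have hQ : ∏ i, (X + C (lam i)) = (X + C (lam i)) * R := by
    rw [hR]
    exact (Finset.mul_prod_erase Finset.univ (fun l => X + C (lam l)) (Finset.mem_univ i)).symm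
  have hcard : (Finset.univ.erase i).card = n - 1 := by
    rw [Finset.card_erase_of_mem (Finset.mem_univ i), Finset.card_univ]
  have hmon : R.Monic := monic_prod_of_monic _ _ fun l _ => monic_X_add_C _
  have hdeg : R.natDegree = n - 1 := by
    rw [hR, natDegree_prod_of_monic _ _ fun l _ => monic_X_add_C _]
    simp [hcard]
  have hsplit : R.Splits := by
    apply Splits.prod
    intro l _
    exact Splits.X_add_C _
  have hn1 : 1 ≤ n := Fintype.card_pos_iff.2 ⟨i⟩
  rw [hQ] at hpos
  have hc : ∀ m, ((X + C (lam i)) * R).coeff (m + 1) = R.coeff m + lam i * R.coeff (m + 1) := by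
    intro m
    rw [add_mul, coeff_add, coeff_X_mul, coeff_C_mul]
  have hc0 : ((X + C (lam i)) * R).coeff 0 = lam i * R.coeff 0 := by
    rw [add_mul, coeff_add, coeff_C_mul]
    simp
  intro j
  induction j with
  | zero =>
    intro _
    rw [Nat.sub_zero, ← hdeg, hmon.coeff_natDegree]
    exact one_pos
  | succ j ih =>
    intro hj
    have h0 := ih (by omega)
    by_contra hneg
    push Not at hneg
    have h1 := hpos (j + 1) (by omega) (by omega)
    have e1 : n - (j + 1) = (n - 1 - (j + 1)) + 1 := by omega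
    rw [e1, hc] at h1
    have e1' : n - 1 - (j + 1) + 1 = n - 1 - j := by omega
    rw [e1'] at h1
    set x := R.coeff (n - 1 - (j + 1)) with hx
    set a := R.coeff (n - 1 - j) with ha
    have hl : 0 < lam i := by
      by_contra hl
      push Not at hl
      have := mul_nonpos_of_nonpos_of_nonneg hl h0.le
      nlinarith
    have h2 := hpos (j + 2) (by omega) (by omega)
    rcases Nat.lt_or_ge (j + 2) n with hlt | hge
    · have e2 : n - (j + 2) = (n - 1 - (j + 2)) + 1 := by omega
      rw [e2, hc] at h2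
      have e2' : n - 1 - (j + 2) + 1 = n - 1 - (j + 1) := by omega
      rw [e2', ← hx] at h2
      set b := R.coeff (n - 1 - (j + 2)) with hb
      have hN := RR722.NW.newton_deg hsplit (n - 1) hdeg.le (n - 1 - (j + 2)) (by omega)
      have e3 : n - 1 - (j + 2) + 2 = n - 1 - j := by omega
      rw [e2', e3, ← hx, ← ha, ← hb] at hN
      have hm : (0 : ℝ) ≤ ((n - 1 - (j + 2) : ℕ) : ℝ) := Nat.cast_nonneg _
      have hm2 : ((n - 1 : ℕ) : ℝ) - ((n - 1 - (j + 2) : ℕ) : ℝ) = (j : ℝ) + 2 := by
        rw [Nat.cast_sub (by omega : j + 2 ≤ n - 1)]; push_cast; ring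
      have hm3 : ((n - 1 : ℕ) : ℝ) - ((n - 1 - (j + 2) : ℕ) : ℝ) - 1 = (j : ℝ) + 1 := by
        rw [hm2]; ring
      rw [hm3, hm2] at hN
      set m : ℝ := ((n - 1 - (j + 2) : ℕ) : ℝ) with hmdef
      have hj0 : (0 : ℝ) ≤ j := Nat.cast_nonneg _
      have hb0 : 0 < b := by
        have := mul_nonpos_of_nonneg_of_nonpos hl.le hneg
        linarith
      have hxx : x ^ 2 < a * b := by
        have h3 : (-x) < lam i * a := by linarith
        have h4 : lam i * (-x) < b := by linarith
        have h5 : (lam i) * x ^ 2 ≤ lam i * a * (lam i * (-x)) := by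
          have h51 : (-x) * (lam i * (-x)) ≤ (lam i * a) * (lam i * (-x)) :=
            mul_le_mul_of_nonneg_right h3.le (mul_nonneg hl.le (by linarith))
          have h52 : (-x) * (lam i * (-x)) = (lam i) * x ^ 2 := by ring
          linarith
        have h6 : lam i * a * (lam i * (-x)) < lam i * a * b :=
          mul_lt_mul_of_pos_left h4 (mul_pos hl h0)
        have h7 : lam i * x ^ 2 < lam i * (a * b) := by
          rw [← mul_assoc]; exact h5.trans_lt h6
        exact lt_of_mul_lt_mul_left h7 hl.le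
      have hab : 0 < b * a := mul_pos hb0 h0
      have h8 : (m + 1) * ((j : ℝ) + 1) * x ^ 2 ≤ (m + 1) * ((j : ℝ) + 1) * (b * a) := by
        apply mul_le_mul_of_nonneg_left _ (by positivity)
        rw [mul_comm b a]
        exact hxx.le
      have h9 : (m + 2) * ((j : ℝ) + 2) * (b * a) - (m + 1) * ((j : ℝ) + 1) * (b * a) =
        (m + j + 3) * (b * a) := by ring
      have h10 : 0 < (m + j + 3) * (b * a) := mul_pos (by positivity) hab
      linarith
    · have e2 : n - (j + 2) = 0 := by omega
      have e3 : n - 1 - (j + 1) = 0 := by omega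
      rw [e2, hc0] at h2
      rw [hx, e3] at hneg
      have := mul_nonpos_of_nonneg_of_nonpos hl.le hneg
      linarith

/-- the Garding cone: positive elementary symmetric functions up to order `k` -/
def Gam (k : ℕ) (A : Matrix ι ι ℝ) : Prop := ∀ j, 1 ≤ j → j ≤ k → 0 < sig j A

omit [Fintype ι] [DecidableEq ι] in
lemma vecMulVec_isHermitian (v : ι → ℝ) : (Matrix.vecMulVec v v).IsHermitian := by
  ext i j
  simp [Matrix.vecMulVec_apply, mul_comm]

lemma sig_mono_rank_one {A : Matrix ι ι ℝ} (hA : A.IsHermitian) {k : ℕ}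
    (hk : k ≤ Fintype.card ι) (hG : Gam k A) (v : ι → ℝ) (j : ℕ) (hj1 : 1 ≤ j) (hjk : j ≤ k) :
    sig j A ≤ sig j (A + Matrix.vecMulVec v v) := by
  have hB : (A + Matrix.vecMulVec v v).IsHermitian := hA.add (vecMulVec_isHermitian v)
  rw [sig_eq_coeff hA (hjk.trans hk), sig_eq_coeff hB (hjk.trans hk)]
  obtain ⟨c, hc⟩ := gp_rank_one hA v
  rw [hc, coeff_add, finsetSum_coeff]
  have : 0 ≤ ∑ i, (C (c i ^ 2) * ∏ l ∈ Finset.univ.erase i,
      (X + C (hA.eigenvalues l))).coeff (Fintype.card ι - j) := by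
    apply Finset.sum_nonneg
    intro i _
    rw [coeff_C_mul]
    apply mul_nonneg (sq_nonneg _)
    have hp := erase_pos hA.eigenvalues k hk (fun l h1 h2 => by
      have := hG l h1 h2
      rwa [sig_eq_coeff hA (h2.trans hk), gp_eq hA] at this) i (j - 1) (by omega)
    have e : Fintype.card ι - 1 - (j - 1) = Fintype.card ι - j := by omega
    rw [e] at hp
    exact hp.le
  linarith

lemma sig_mono_sum {A : Matrix ι ι ℝ} (hA : A.IsHermitian) {k : ℕ}
    (hk : k ≤ Fintype.card ι) (hG : Gam k A) {κ : Type*} (s : Finset κ) (v : κ → ι → ℝ) :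
    (A + ∑ l ∈ s, Matrix.vecMulVec (v l) (v l)).IsHermitian ∧
    ∀ j, 1 ≤ j → j ≤ k → sig j A ≤ sig j (A + ∑ l ∈ s, Matrix.vecMulVec (v l) (v l)) := by
  classical
  induction s using Finset.induction_on with
  | empty =>
    rw [Finset.sum_empty, add_zero]
    exact ⟨hA, fun j _ _ => le_rfl⟩
  | insert a s ha ih =>
    obtain ⟨ih1, ih2⟩ := ih
    have e : A + ∑ l ∈ insert a s, Matrix.vecMulVec (v l) (v l) =
        (A + ∑ l ∈ s, Matrix.vecMulVec (v l) (v l)) + Matrix.vecMulVec (v a) (v a) := by
      rw [Finset.sum_insert ha]; abel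
    rw [e]
    refine ⟨ih1.add (vecMulVec_isHermitian _), fun j h1 h2 => (ih2 j h1 h2).trans ?_⟩
    exact sig_mono_rank_one ih1 hk (fun l h3 h4 => (hG l h3 h4).trans_le (ih2 l h3 h4)) _ j h1 h2

/-- **Monotonicity of the elementary symmetric functions on the Garding cone.** -/
theorem sig_mono {A B : Matrix ι ι ℝ} (hA : A.IsHermitian) {k : ℕ}
    (hk : k ≤ Fintype.card ι) (hG : Gam k A) (hB : (B - A).PosSemidef)
    (j : ℕ) (hj1 : 1 ≤ j) (hjk : j ≤ k) : sig j A ≤ sig j B := by
  obtain ⟨m, R, hR⟩ := Matrix.posSemidef_iff_eq_sum_vecMulVec.1 hB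
  have e : B = A + ∑ l, Matrix.vecMulVec (R l) (R l) := by
    rw [← sub_eq_iff_eq_add', hR]
    rfl
  rw [e]
  exact (sig_mono_sum hA hk hG Finset.univ R).2 j hj1 hjk

end Pool.Agent.P8H67.KH
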