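import Mathlib
import Pool.Agent.P8H67.KH.Sk

/-! Elementary symmetric functions of a bordered diagonal matrix of order 12. -/

open Polynomial Matrix

namespace Pool.Agent.P8H67.KH

/-- the diagonal `(m, p, d, ..., d)` -/
noncomputable def dg (m p d : ℝ) : Fin 12 → ℝ := Fin.cons m (Fin.cons p (fun _ : Fin 10 => d))

/-- the vector `(0, 0, b)` -/
noncomputable def bv (b : Fin 10 → ℝ) : Fin 12 → ℝ := Fin.cons 0 (Fin.cons 0 b)

/-- the bordered diagonal matrix -/
noncomputable def W (m p d : ℝ) (b : Fin 10 → ℝ) : Matrix (Fin 12) (Fin 12) ℝ :=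
  Matrix.diagonal (dg m p d) + (Matrix.vecMulVec (Pi.single 1 1) (bv b) +
    Matrix.vecMulVec (bv b) (Pi.single 1 1))

lemma W_isHermitian (m p d : ℝ) (b : Fin 10 → ℝ) : (W m p d b).IsHermitian := by
  ext i j
  by_cases h : i = j
  · subst h; simp [W]
  · have h' : j ≠ i := fun e => h e.symm
    simp [W, Matrix.vecMulVec_apply, h, h']
    ring

lemma quad_W (m p d : ℝ) (b : Fin 10 → ℝ) (v : Fin 12 → ℝ) :
    v ⬝ᵥ (W m p d b *ᵥ v) = m * v 0 ^ 2 + p * v 1 ^ 2 + d * ∑ i : Fin 10, v i.succ.succ ^ 2 +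
      2 * v 1 * ∑ i : Fin 10, b i * v i.succ.succ := by
  have h1 : v ⬝ᵥ (Matrix.diagonal (dg m p d) *ᵥ v) =
      m * v 0 ^ 2 + p * v 1 ^ 2 + d * ∑ i : Fin 10, v i.succ.succ ^ 2 := by
    simp only [dotProduct, Matrix.mulVec_diagonal]
    rw [Fin.sum_univ_succ, Fin.sum_univ_succ]
    simp only [dg, Fin.cons_zero, Fin.cons_succ]
    rw [Finset.mul_sum]
    have : (Fin.succ (0 : Fin 11) : Fin 12) = 1 := rfl
    rw [this, ← add_assoc]
    congr 1
    · ring
    · apply Finset.sum_congr rfl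
      intro i _
      ring
  have h2 : (bv b) ⬝ᵥ v = ∑ i : Fin 10, b i * v i.succ.succ := by
    simp only [dotProduct]
    rw [Fin.sum_univ_succ, Fin.sum_univ_succ]
    simp [bv]
  have h3 : v ⬝ᵥ (bv b) = ∑ i : Fin 10, b i * v i.succ.succ := by
    rw [dotProduct_comm, h2]
  have h4 : (Pi.single 1 1 : Fin 12 → ℝ) ⬝ᵥ v = v 1 := by simp
  have h5 : v ⬝ᵥ (Pi.single 1 1 : Fin 12 → ℝ) = v 1 := by simp
  rw [W, Matrix.add_mulVec, Matrix.add_mulVec, dotProduct_add, dotProduct_add, h1,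
    Matrix.vecMulVec_mulVec, Matrix.vecMulVec_mulVec, dotProduct_smul, dotProduct_smul, h2, h3,
    h4, h5]
  simp only [MulOpposite.smul_eq_mul_unop, MulOpposite.unop_op]
  ring

lemma det_bord (δ b : Fin 12 → ℝ) (hδ : ∀ i, δ i ≠ 0) (hb : b 1 = 0) :
    (Matrix.diagonal δ + (Matrix.vecMulVec (Pi.single 1 1) b +
      Matrix.vecMulVec b (Pi.single 1 1))).det =
      (∏ i, δ i) * (1 - (∑ i, b i ^ 2 / δ i) / δ 1) := by
  have hdet : IsUnit (Matrix.diagonal δ).det := by
    rw [Matrix.det_diagonal, isUnit_iff_ne_zero]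
    exact Finset.prod_ne_zero_iff.2 fun i _ => hδ i
  set U : Matrix (Fin 12) (Fin 2) ℝ := Matrix.of fun i j => ![(Pi.single 1 1 : Fin 12 → ℝ) i, b i] j
    with hU
  set V : Matrix (Fin 2) (Fin 12) ℝ := Matrix.of fun j i => ![b i, (Pi.single 1 1 : Fin 12 → ℝ) i] j
    with hV
  have hUV : U * V = Matrix.vecMulVec (Pi.single 1 1) b + Matrix.vecMulVec b (Pi.single 1 1) := by
    ext i j
    simp [Matrix.mul_apply, Fin.sum_univ_two, hU, hV, Matrix.vecMulVec_apply]
  have hinv : (Matrix.diagonal δ)⁻¹ = Matrix.diagonal fun i => (δ i)⁻¹ := by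
    apply Matrix.inv_eq_right_inv
    rw [Matrix.diagonal_mul_diagonal]
    ext i j
    by_cases hij : i = j
    · subst hij; simp [hδ i]
    · simp [hij]
  rw [← hUV, Matrix.det_add_mul U V hdet, Matrix.det_diagonal, hinv, Matrix.det_fin_two]
  have e : ∀ i j, (V * Matrix.diagonal (fun i => (δ i)⁻¹) * U) i j =
      ∑ l, V i l * (δ l)⁻¹ * U l j := by
    intro i j
    rw [Matrix.mul_apply]
    apply Finset.sum_congr rfl
    intro l _
    rw [Matrix.mul_diagonal]
  simp only [Matrix.add_apply, e]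
  have e00 : ∑ l, V 0 l * (δ l)⁻¹ * U l 0 = 0 := by
    rw [Finset.sum_eq_single (1 : Fin 12)]
    · simp [hU, hV, hb]
    · intro l _ hl
      simp [hU, Pi.single_apply, hl]
    · simp
  have e11 : ∑ l, V 1 l * (δ l)⁻¹ * U l 1 = 0 := by
    rw [Finset.sum_eq_single (1 : Fin 12)]
    · simp [hU, hV, hb]
    · intro l _ hl
      simp [hV, Pi.single_apply, hl]
    · simp
  have e01 : ∑ l, V 0 l * (δ l)⁻¹ * U l 1 = ∑ i, b i ^ 2 / δ i := by
    apply Finset.sum_congr rfl
    intro l _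
    simp [hU, hV]
    have := hδ l
    field_simp
  have e10 : ∑ l, V 1 l * (δ l)⁻¹ * U l 0 = (δ 1)⁻¹ := by
    rw [Finset.sum_eq_single (1 : Fin 12)]
    · simp [hU, hV]
    · intro l _ hl
      simp [hV, Pi.single_apply, hl]
    · simp
  rw [e00, e11, e01, e10, Matrix.one_apply_eq, Matrix.one_apply_eq,
    Matrix.one_apply_ne (by decide), Matrix.one_apply_ne (by decide)]
  ring

/-- the generating polynomial of `W` -/
lemma gp_W (m p d : ℝ) (b : Fin 10 → ℝ) :
    gp (W m p d b) = (X + C m) * (X + C d) ^ 9 * ((X + C p) * (X + C d) - C (∑ i, b i ^ 2)) := by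
  apply Polynomial.eq_of_infinite_eval_eq
  refine (Set.Ioi_infinite (|m| + |p| + |d|)).mono ?_
  intro s hs
  have hs : |m| + |p| + |d| < s := hs
  have hm := neg_abs_le m
  have hp := neg_abs_le p
  have hd := neg_abs_le d
  have hm0 := abs_nonneg m
  have hp0 := abs_nonneg p
  have hd0 := abs_nonneg d
  have h1 : s + m ≠ 0 := by intro h; linarith
  have h2 : s + p ≠ 0 := by intro h; linarith
  have h3 : s + d ≠ 0 := by intro h; linarith
  simp only [Set.mem_ofPred_eq]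
  rw [eval_gp]
  have key : s • (1 : Matrix (Fin 12) (Fin 12) ℝ) + W m p d b =
      Matrix.diagonal (dg (s + m) (s + p) (s + d)) + (Matrix.vecMulVec (Pi.single 1 1) (bv b) +
      Matrix.vecMulVec (bv b) (Pi.single 1 1)) := by
    rw [W, ← add_assoc]
    congr 1
    ext i j
    by_cases hij : i = j
    · subst hij
      simp only [Matrix.add_apply, Matrix.smul_apply, Matrix.one_apply_eq,
        Matrix.diagonal_apply_eq, smul_eq_mul, mul_one]
      refine Fin.cases ?_ (fun i => ?_) i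
      · simp [dg]
      · refine Fin.cases ?_ (fun i => ?_) i
        · simp [dg]
        · simp [dg]
    · simp [hij]
  have hnz : ∀ i, dg (s + m) (s + p) (s + d) i ≠ 0 := by
    intro i
    refine Fin.cases ?_ (fun i => ?_) i
    · simpa [dg] using h1
    · refine Fin.cases ?_ (fun i => ?_) i
      · simpa [dg] using h2
      · simpa [dg] using h3
  rw [key, det_bord _ _ hnz rfl]
  have e1 : ∏ i, dg (s + m) (s + p) (s + d) i = (s + m) * ((s + p) * (s + d) ^ 10) := by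
    rw [Fin.prod_univ_succ, Fin.prod_univ_succ]
    simp [dg]
  have e2 : ∑ i, bv b i ^ 2 / dg (s + m) (s + p) (s + d) i = (∑ i, b i ^ 2) / (s + d) := by
    rw [Fin.sum_univ_succ, Fin.sum_univ_succ, Finset.sum_div]
    simp [dg, bv]
  have e3 : dg (s + m) (s + p) (s + d) 1 = s + p := rfl
  rw [e1, e2, e3]
  simp only [eval_mul, eval_add, eval_sub, eval_pow, eval_X, eval_C]
  field_simp

lemma coeff_one_eq (P : ℝ[X]) : P.coeff 1 = (derivative P).eval 0 := by
  rw [← coeff_zero_eq_eval_zero, coeff_derivative]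
  simp

lemma sig_W_le (m p d : ℝ) (b : Fin 10 → ℝ) (hm : 0 ≤ m) (hd : 0 ≤ d) :
    sig 11 (W m p d b) ≤ p * d ^ 10 + m * (d ^ 10 + 10 * p * d ^ 9) := by
  rw [sig_eq_coeff (W_isHermitian m p d b) (by simp), gp_W]
  have h : Fintype.card (Fin 12) - 11 = 1 := by simp
  rw [h, coeff_one_eq]
  have hB : 0 ≤ ∑ i, b i ^ 2 := Finset.sum_nonneg fun i _ => sq_nonneg _
  set B := ∑ i, b i ^ 2
  simp only [derivative_mul, derivative_add, derivative_sub, derivative_X, derivative_C,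
    derivative_X_add_C_pow, eval_mul, eval_add, eval_sub, eval_pow, eval_X, eval_C, eval_one,
    eval_zero]
  have h1 : 0 ≤ B * d ^ 9 := by positivity
  have h2 : 0 ≤ B * m * d ^ 8 := by positivity
  simp
  nlinarith

lemma sig_W_zero (m e : ℝ) (j : ℕ) (hj1 : 1 ≤ j) (hj : j ≤ 11) :
    sig j (W (-m) e e 0) = (Nat.choose 11 (11 - j) : ℝ) * e ^ j -
      m * ((Nat.choose 11 (12 - j) : ℝ) * e ^ (j - 1)) := by
  rw [sig_eq_coeff (W_isHermitian _ _ _ _) (by simp; omega), gp_W]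
  have h : Fintype.card (Fin 12) - j = (11 - j) + 1 := by simp; omega
  have hp : (X + C (-m)) * (X + C e) ^ 9 * ((X + C e) * (X + C e) -
      C (∑ i, (0 : Fin 10 → ℝ) i ^ 2)) = X * (X + C e) ^ 11 - C m * (X + C e) ^ 11 := by
    simp
    ring
  rw [h, hp, coeff_sub, coeff_X_mul, coeff_C_mul, coeff_X_add_C_pow, coeff_X_add_C_pow]
  have h1 : 11 - (11 - j) = j := by omega
  have h2 : 11 - (11 - j + 1) = j - 1 := by omega
  have h3 : 11 - j + 1 = 12 - j := by omega
  rw [h1, h2, h3]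
  ring

lemma sig_W_zero_pos (m e : ℝ) (he : 1 ≤ e) (hm : 0 ≤ m) (hm2 : 462 * m < 1) :
    Gam 11 (W (-m) e e 0) := by
  intro j hj1 hj
  rw [sig_W_zero m e j hj1 hj]
  have h1 : (1 : ℝ) ≤ (Nat.choose 11 (11 - j) : ℝ) := by
    exact_mod_cast Nat.choose_pos (by omega)
  have h2 : (Nat.choose 11 (12 - j) : ℝ) ≤ 462 := by
    have : Nat.choose 11 (12 - j) ≤ 462 := by
      interval_cases j <;> decide
    exact_mod_cast this
  have h3 : e ^ j = e ^ (j - 1) * e := by
    rw [← pow_succ]; congr 1; omega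
  have h4 : 0 < e ^ (j - 1) := by positivity
  rw [h3]
  have h5 : e ^ (j - 1) * 1 ≤ (Nat.choose 11 (11 - j) : ℝ) * (e ^ (j - 1) * e) := by
    have : e ^ (j - 1) * 1 ≤ e ^ (j - 1) * e := mul_le_mul_of_nonneg_left he h4.le
    nlinarith
  have h6 : m * ((Nat.choose 11 (12 - j) : ℝ) * e ^ (j - 1)) ≤ m * (462 * e ^ (j - 1)) :=
    mul_le_mul_of_nonneg_left (mul_le_mul_of_nonneg_right h2 h4.le) hm
  nlinarith

lemma sig_W_zero_eleven (m e : ℝ) : sig 11 (W (-m) e e 0) = e ^ 11 - 11 * m * e ^ 10 := by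
  rw [sig_W_zero m e 11 (by norm_num) le_rfl]
  norm_num
  ring

end Pool.Agent.P8H67.KH
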