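import Mathlib
import Pool.Agent.P8H67.KH.Bord

/-! Comparison principle for the `k`-Hessian operator. -/

open Matrix Topology

namespace Pool.Agent.P8H67.KH

variable {n : ℕ}

/-- The Hessian matrix `∂_i ∂_j u (x)`. -/
noncomputable def hess (u : EuclideanSpace ℝ (Fin n) → ℝ) (x : EuclideanSpace ℝ (Fin n)) :
    Matrix (Fin n) (Fin n) ℝ :=
  Matrix.of fun i j => fderiv ℝ (fun y => fderiv ℝ u y (EuclideanSpace.single j 1)) x
    (EuclideanSpace.single i 1)

/-- second derivative along a line -/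
noncomputable def D2 (f : EuclideanSpace ℝ (Fin n) → ℝ) (x v : EuclideanSpace ℝ (Fin n)) : ℝ :=
  deriv (deriv (fun s : ℝ => f (x + s • v))) 0

section basic

variable {f : EuclideanSpace ℝ (Fin n) → ℝ} {x : EuclideanSpace ℝ (Fin n)}

lemma ev_diff (hf : ContDiffAt ℝ 2 f x) : ∀ᶠ y in 𝓝 x, DifferentiableAt ℝ f y := by
  have h := hf.eventually (by simp)
  filter_upwards [h] with y hy
  exact hy.differentiableAt (by norm_num)

lemma fderiv_diff (hf : ContDiffAt ℝ 2 f x) : DifferentiableAt ℝ (fderiv ℝ f) x :=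
  (hf.fderiv_right (m := 1) (by norm_num)).differentiableAt (by norm_num)

lemma hess_apply (hf : ContDiffAt ℝ 2 f x) (i j : Fin n) :
    hess f x i j = fderiv ℝ (fderiv ℝ f) x (EuclideanSpace.single i 1)
      (EuclideanSpace.single j 1) := by
  have h := fderiv_diff hf
  simp only [hess, Matrix.of_apply]
  have h2 : HasFDerivAt (fun y => fderiv ℝ f y (EuclideanSpace.single j 1))
      ((ContinuousLinearMap.apply ℝ ℝ (EuclideanSpace.single j (1 : ℝ))).comp
        (fderiv ℝ (fderiv ℝ f) x)) x :=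
    (ContinuousLinearMap.apply ℝ ℝ (EuclideanSpace.single j (1 : ℝ))).hasFDerivAt.comp x
      h.hasFDerivAt
  rw [h2.fderiv]
  rfl

lemma hess_isHermitian (hf : ContDiffAt ℝ 2 f x) : (hess f x).IsHermitian := by
  ext i j
  rw [Matrix.conjTranspose_apply, hess_apply hf, hess_apply hf]
  simp only [star_trivial]
  exact (hf.isSymmSndFDerivAt (by simp)) _ _

lemma D2_eq_fderiv (hf : ContDiffAt ℝ 2 f x) (v : EuclideanSpace ℝ (Fin n)) :
    D2 f x v = fderiv ℝ (fderiv ℝ f) x v v := by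
  have hl : ∀ s : ℝ, HasDerivAt (fun s : ℝ => x + s • v) v s := by
    intro s
    have := ((hasDerivAt_id s).smul_const v).const_add x
    simpa using this
  have hl0 : x + (0 : ℝ) • v = x := by simp
  have hev : deriv (fun s : ℝ => f (x + s • v)) =ᶠ[𝓝 0] fun s => fderiv ℝ f (x + s • v) v := by
    have hc : Filter.Tendsto (fun s : ℝ => x + s • v) (𝓝 0) (𝓝 x) := by
      have := (hl 0).continuousAt.tendsto
      rwa [hl0] at this
    filter_upwards [hc.eventually (ev_diff hf)] with s hs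
    exact (hs.hasFDerivAt.comp_hasDerivAt s (hl s)).deriv
  rw [D2, hev.deriv_eq]
  have h := fderiv_diff hf
  have h2 : HasDerivAt (fun s : ℝ => fderiv ℝ f (x + s • v)) (fderiv ℝ (fderiv ℝ f) x v) 0 := by
    have h3 : HasFDerivAt (fderiv ℝ f) (fderiv ℝ (fderiv ℝ f) x) (x + (0 : ℝ) • v) := by
      rw [hl0]; exact h.hasFDerivAt
    exact h3.comp_hasDerivAt 0 (hl 0)
  have h4 := h2.clm_apply (hasDerivAt_const (0 : ℝ) v)
  simp only [map_zero, add_zero] at h4
  exact h4.deriv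

lemma quad_hess (hf : ContDiffAt ℝ 2 f x) (v : EuclideanSpace ℝ (Fin n)) :
    D2 f x v = v.ofLp ⬝ᵥ (hess f x *ᵥ v.ofLp) := by
  rw [D2_eq_fderiv hf]
  have hv : v = ∑ i, v i • EuclideanSpace.single i (1 : ℝ) := by
    ext j
    simp [Pi.single_apply]
  conv_lhs => rw [hv]
  simp only [map_sum, map_smul, _root_.sum_apply, _root_.smul_apply,
    dotProduct, Matrix.mulVec, hess_apply hf, smul_eq_mul, Finset.mul_sum]
  rw [Finset.sum_comm]
  apply Finset.sum_congr rfl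
  intro i _
  apply Finset.sum_congr rfl
  intro j _
  ring

lemma D2_sub {g : EuclideanSpace ℝ (Fin n) → ℝ} (hf : ContDiffAt ℝ 2 f x)
    (hg : ContDiffAt ℝ 2 g x) (v : EuclideanSpace ℝ (Fin n)) :
    D2 (fun y => f y - g y) x v = D2 f x v - D2 g x v := by
  rw [D2_eq_fderiv hf, D2_eq_fderiv hg, D2_eq_fderiv (hf.sub hg)]
  have h1 : fderiv ℝ (fun y => f y - g y) =ᶠ[𝓝 x] fun y => fderiv ℝ f y - fderiv ℝ g y := by
    filter_upwards [ev_diff hf, ev_diff hg] with y hy1 hy2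
    exact fderiv_fun_sub hy1 hy2
  rw [h1.fderiv_eq, fderiv_fun_sub (fderiv_diff hf) (fderiv_diff hg)]
  rfl

lemma D2_nonpos_of_isLocalMax (hf : ContDiffAt ℝ 2 f x) (hmax : IsLocalMax f x)
    (v : EuclideanSpace ℝ (Fin n)) : D2 f x v ≤ 0 := by
  by_contra hcon
  push Not at hcon
  set g : ℝ → ℝ := fun s => f (x + s • v) with hg
  have hl : ∀ s : ℝ, HasDerivAt (fun s : ℝ => x + s • v) v s := by
    intro s
    have := ((hasDerivAt_id s).smul_const v).const_add x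
    simpa using this
  have hl0 : x + (0 : ℝ) • v = x := by simp
  have hc : Filter.Tendsto (fun s : ℝ => x + s • v) (𝓝 0) (𝓝 x) := by
    have := (hl 0).continuousAt.tendsto
    rwa [hl0] at this
  have hgmax : IsLocalMax g 0 := by
    have : ∀ᶠ s in 𝓝 (0 : ℝ), f (x + s • v) ≤ f x := hc.eventually hmax
    filter_upwards [this] with s hs
    simpa [hg] using hs
  have hd : deriv g 0 = 0 := hgmax.deriv_eq_zero
  have hgc : ContinuousAt g 0 := by
    have h1 : ContinuousAt f (x + (0 : ℝ) • v) := by rw [hl0]; exact hf.continuousAt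
    exact h1.comp (f := fun s : ℝ => x + s • v) (hl 0).continuousAt
  have hmin : IsLocalMin g 0 := isLocalMin_of_deriv_deriv_pos hcon hd hgc
  have hconst : g =ᶠ[𝓝 0] fun _ => g 0 := by
    filter_upwards [hgmax, hmin] with s h1 h2
    exact le_antisymm h1 h2
  have h2 : deriv g =ᶠ[𝓝 0] fun _ => 0 := by
    have := hconst.deriv
    filter_upwards [this] with s hs
    rw [hs]; simp
  have h3 : deriv (deriv g) 0 = 0 := by
    rw [h2.deriv_eq]; simp
  have h4 : D2 f x v = 0 := h3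
  linarith

end basic

/-- If `D² u ≤ B` as quadratic forms then `B - D² u` is positive semidefinite. -/
lemma psd_of_D2 {f : EuclideanSpace ℝ (Fin n) → ℝ} {x : EuclideanSpace ℝ (Fin n)}
    (hf : ContDiffAt ℝ 2 f x) {B : Matrix (Fin n) (Fin n) ℝ} (hB : B.IsHermitian)
    (h : ∀ v : EuclideanSpace ℝ (Fin n), D2 f x v ≤ v.ofLp ⬝ᵥ (B *ᵥ v.ofLp)) :
    (B - hess f x).PosSemidef := by
  rw [Matrix.posSemidef_iff_dotProduct_mulVec]
  refine ⟨hB.sub (hess_isHermitian hf), fun v => ?_⟩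
  have := h (WithLp.toLp 2 v)
  rw [quad_hess hf] at this
  simp only [star_trivial]
  rw [Matrix.sub_mulVec, dotProduct_sub]
  simpa using this

lemma psd_of_D2' {f : EuclideanSpace ℝ (Fin n) → ℝ} {x : EuclideanSpace ℝ (Fin n)}
    (hf : ContDiffAt ℝ 2 f x) {B : Matrix (Fin n) (Fin n) ℝ} (hB : B.IsHermitian)
    (h : ∀ v : EuclideanSpace ℝ (Fin n), v.ofLp ⬝ᵥ (B *ᵥ v.ofLp) ≤ D2 f x v) :
    (hess f x - B).PosSemidef := by
  rw [Matrix.posSemidef_iff_dotProduct_mulVec]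
  refine ⟨(hess_isHermitian hf).sub hB, fun v => ?_⟩
  have := h (WithLp.toLp 2 v)
  rw [quad_hess hf] at this
  simp only [star_trivial]
  rw [Matrix.sub_mulVec, dotProduct_sub]
  simpa using this

variable {k : ℕ} {Ω : Set (EuclideanSpace ℝ (Fin n))} {u w : EuclideanSpace ℝ (Fin n) → ℝ}

/-- **Comparison from above.** -/
theorem cmp_upper (hk1 : 1 ≤ k) (hk : k ≤ n) (hΩ : IsOpen Ω) (hb : Bornology.IsBounded Ω)
    (hu : ContDiffOn ℝ 2 u Ω) (huc : ContinuousOn u (closure Ω))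
    (hu0 : ∀ x ∈ frontier Ω, u x = 0) (hG : ∀ x ∈ Ω, Gam k (hess u x))
    (hS : ∀ x ∈ Ω, sig k (hess u x) = 1) (hw : ContDiff ℝ 2 w)
    (hwb : ∀ x ∈ frontier Ω, 0 ≤ w x)
    (hW : ∀ x ∈ Ω, ∃ B : Matrix (Fin n) (Fin n) ℝ, B.IsHermitian ∧ sig k B < 1 ∧
      ∀ v : EuclideanSpace ℝ (Fin n), D2 w x v = v.ofLp ⬝ᵥ (B *ᵥ v.ofLp)) :
    ∀ x ∈ Ω, u x ≤ w x := by
  intro x0 hx0
  by_contra hcon
  push Not at hcon
  have hcpt : IsCompact (closure Ω) := hb.isCompact_closure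
  obtain ⟨x1, hx1, hmax⟩ := hcpt.exists_isMaxOn ⟨x0, subset_closure hx0⟩
    (huc.sub hw.continuous.continuousOn)
  have h01 : u x0 - w x0 ≤ u x1 - w x1 := hmax (subset_closure hx0)
  have hx1Ω : x1 ∈ Ω := by
    by_contra hnot
    have hfr : x1 ∈ frontier Ω := by
      rw [hΩ.frontier_eq]; exact ⟨hx1, hnot⟩
    have := hwb x1 hfr
    rw [hu0 x1 hfr] at h01
    linarith
  have hux : ContDiffAt ℝ 2 u x1 := hu.contDiffAt (hΩ.mem_nhds hx1Ω)
  have hloc : IsLocalMax (fun y => u y - w y) x1 := by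
    filter_upwards [hΩ.mem_nhds hx1Ω] with y hy
    exact hmax (subset_closure hy)
  obtain ⟨B, hB, hB1, hBv⟩ := hW x1 hx1Ω
  have hpsd := psd_of_D2 hux hB (fun v => by
    have h1 := D2_nonpos_of_isLocalMax (hux.sub hw.contDiffAt) hloc v
    rw [D2_sub hux hw.contDiffAt] at h1
    rw [← hBv v]; linarith)
  have h2 := sig_mono (hess_isHermitian hux) (by simpa using hk) (hG x1 hx1Ω) hpsd k hk1 le_rfl
  rw [hS x1 hx1Ω] at h2
  linarith

/-- **Comparison from below.** -/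
theorem cmp_lower (hk1 : 1 ≤ k) (hk : k ≤ n) (hΩ : IsOpen Ω) (hb : Bornology.IsBounded Ω)
    (hu : ContDiffOn ℝ 2 u Ω) (huc : ContinuousOn u (closure Ω))
    (hu0 : ∀ x ∈ frontier Ω, u x = 0)
    (hS : ∀ x ∈ Ω, sig k (hess u x) = 1) (hw : ContDiff ℝ 2 w)
    (hwb : ∀ x ∈ frontier Ω, w x ≤ 0)
    (hW : ∀ x ∈ Ω, ∃ B : Matrix (Fin n) (Fin n) ℝ, B.IsHermitian ∧ Gam k B ∧ 1 < sig k B ∧
      ∀ v : EuclideanSpace ℝ (Fin n), D2 w x v = v.ofLp ⬝ᵥ (B *ᵥ v.ofLp)) :
    ∀ x ∈ Ω, w x ≤ u x := by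
  intro x0 hx0
  by_contra hcon
  push Not at hcon
  have hcpt : IsCompact (closure Ω) := hb.isCompact_closure
  obtain ⟨x1, hx1, hmax⟩ := hcpt.exists_isMaxOn ⟨x0, subset_closure hx0⟩
    (hw.continuous.continuousOn.sub huc)
  have h01 : w x0 - u x0 ≤ w x1 - u x1 := hmax (subset_closure hx0)
  have hx1Ω : x1 ∈ Ω := by
    by_contra hnot
    have hfr : x1 ∈ frontier Ω := by
      rw [hΩ.frontier_eq]; exact ⟨hx1, hnot⟩
    have := hwb x1 hfr
    rw [hu0 x1 hfr] at h01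
    linarith
  have hux : ContDiffAt ℝ 2 u x1 := hu.contDiffAt (hΩ.mem_nhds hx1Ω)
  have hloc : IsLocalMax (fun y => w y - u y) x1 := by
    filter_upwards [hΩ.mem_nhds hx1Ω] with y hy
    exact hmax (subset_closure hy)
  obtain ⟨B, hB, hBG, hB1, hBv⟩ := hW x1 hx1Ω
  have hpsd := psd_of_D2' hux hB (fun v => by
    have h1 := D2_nonpos_of_isLocalMax (hw.contDiffAt.sub hux) hloc v
    rw [D2_sub hw.contDiffAt hux] at h1
    rw [← hBv v]; linarith)
  have h2 := sig_mono hB (by simpa using hk) hBG hpsd k hk1 le_rfl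
  rw [hS x1 hx1Ω] at h2
  linarith

end Pool.Agent.P8H67.KH
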