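import Mathlib
import Pool.Agent.P8H67.KH.Cmp

/-! The polynomial `Th` and its second derivatives along lines. -/

open Polynomial Topology Matrix

namespace Pool.Agent.P8H67.KH

abbrev V12 := EuclideanSpace ℝ (Fin 12)

/-- `∑_{i ≥ 2} p_i ^ 2` -/
noncomputable def tt (p : V12) : ℝ := ∑ i : Fin 10, p i.succ.succ ^ 2

/-- `∑_{i ≥ 2} p_i v_i` -/
noncomputable def cc (p v : V12) : ℝ := ∑ i : Fin 10, p i.succ.succ * v i.succ.succ

lemma tt_nonneg (p : V12) : 0 ≤ tt p := Finset.sum_nonneg fun i _ => sq_nonneg _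

lemma tt_line (p v : V12) (s : ℝ) : tt (p + s • v) = tt p + 2 * cc p v * s + tt v * s ^ 2 := by
  simp only [tt, cc, PiLp.add_apply, PiLp.smul_apply, smul_eq_mul]
  rw [Finset.mul_sum, Finset.sum_mul, Finset.sum_mul, ← Finset.sum_add_distrib,
    ← Finset.sum_add_distrib]
  apply Finset.sum_congr rfl
  intro i _
  ring

lemma cc_sq_le (p v : V12) : cc p v ^ 2 ≤ tt p * tt v := by
  exact Finset.sum_mul_sq_le_sq_mul_sq _ _ _

lemma zero_line (p v : V12) (i : Fin 12) (s : ℝ) : (p + s • v) i = p i + s * v i := by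
  simp

/-- the quartic polynomial `q` -/
noncomputable def qq (b t : ℝ) : ℝ :=
  5.52 + 87.5 * b ^ 2 - 4.75 * t - 18 * b ^ 4 + 12.25 * b ^ 2 * t

/-- the polynomial `Θ` -/
noncomputable def Th (τ b t : ℝ) : ℝ :=
  (b ^ 2 + t - 1) / 2 - τ * (10 * b ^ 2 - t) / 2 + τ ^ 2 / 2 * qq b t

/-- first derivative of `q` along a line -/
noncomputable def q1 (b t β c : ℝ) : ℝ :=
  175 * b * β - 9.5 * c - 72 * b ^ 3 * β + 12.25 * (2 * b * β * t + 2 * b ^ 2 * c)

/-- second derivative of `q` along a line -/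
noncomputable def q2 (b t β c ζ : ℝ) : ℝ :=
  175 * β ^ 2 - 9.5 * ζ - 216 * b ^ 2 * β ^ 2 + 12.25 * (2 * β ^ 2 * t + 8 * b * β * c + 2 * b ^ 2 * ζ)

/-- first derivative of `Θ` along a line -/
noncomputable def Th1 (τ b t θ β c : ℝ) : ℝ :=
  b * β + c - θ * (10 * b ^ 2 - t) / 2 - τ * (10 * b * β - c) + τ * θ * qq b t +
    τ ^ 2 / 2 * q1 b t β c

/-- second derivative of `Θ` along a line -/
noncomputable def Th2 (τ b t θ β c ζ : ℝ) : ℝ :=
  β ^ 2 + ζ - 2 * θ * (10 * b * β - c) - τ * (10 * β ^ 2 - ζ) + θ ^ 2 * qq b t +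
    2 * τ * θ * q1 b t β c + τ ^ 2 / 2 * q2 b t β c ζ

/-- the polynomial in the line parameter -/
noncomputable def ThP (τ b t θ β c ζ : ℝ) : ℝ[X] :=
  C (1/2) * ((C b + C β * X) ^ 2 + (C t + C (2 * c) * X + C ζ * X ^ 2) - 1) -
  C (1/2) * (C τ + C θ * X) * (C 10 * (C b + C β * X) ^ 2 - (C t + C (2 * c) * X + C ζ * X ^ 2)) +
  C (1/2) * (C τ + C θ * X) ^ 2 * (C 5.52 + C 87.5 * (C b + C β * X) ^ 2 -
    C 4.75 * (C t + C (2 * c) * X + C ζ * X ^ 2) - C 18 * (C b + C β * X) ^ 4 +
    C 12.25 * (C b + C β * X) ^ 2 * (C t + C (2 * c) * X + C ζ * X ^ 2))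

lemma ThP_eval (τ b t θ β c ζ s : ℝ) : (ThP τ b t θ β c ζ).eval s =
    Th (τ + θ * s) (b + β * s) (t + 2 * c * s + ζ * s ^ 2) := by
  simp only [ThP, Th, qq, eval_add, eval_sub, eval_mul, eval_pow, eval_C, eval_X, eval_one]
  ring

lemma ThP_d1 (τ b t θ β c ζ : ℝ) :
    (derivative (ThP τ b t θ β c ζ)).eval 0 = Th1 τ b t θ β c := by
  simp only [ThP, Th1, qq, q1, derivative_add, derivative_sub, derivative_mul, derivative_pow,
    derivative_C, derivative_X, derivative_one, eval_add, eval_sub, eval_mul, eval_pow, eval_C,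
    eval_X, eval_one, eval_zero]
  norm_num
  ring

lemma ThP_d2 (τ b t θ β c ζ : ℝ) :
    (derivative (derivative (ThP τ b t θ β c ζ))).eval 0 = Th2 τ b t θ β c ζ := by
  simp only [ThP, Th2, qq, q1, q2, derivative_add, derivative_sub, derivative_mul, derivative_pow,
    derivative_C, derivative_X, derivative_one, derivative_zero, eval_add, eval_sub, eval_mul,
    eval_pow, eval_C, eval_X, eval_one, eval_zero]
  norm_num
  ring

lemma deriv2_poly (P : ℝ[X]) :
    deriv (deriv (fun s => P.eval s)) 0 = (derivative (derivative P)).eval 0 := by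
  have : deriv (fun s => P.eval s) = fun s => (derivative P).eval s := by
    ext s; exact P.deriv
  rw [this]; exact (derivative P).deriv

/-- second derivative of `exp (l * P) + Q` at `0` -/
lemma deriv2_exp (l : ℝ) (P Q : ℝ[X]) :
    deriv (deriv (fun s => Real.exp (l * P.eval s) + Q.eval s)) 0 =
      l * Real.exp (l * P.eval 0) * ((derivative (derivative P)).eval 0 +
        l * (derivative P).eval 0 ^ 2) + (derivative (derivative Q)).eval 0 := by
  have h1 : ∀ s, HasDerivAt (fun s => Real.exp (l * P.eval s) + Q.eval s)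
      (Real.exp (l * P.eval s) * (l * (derivative P).eval s) + (derivative Q).eval s) s := by
    intro s
    exact (((P.hasDerivAt s).const_mul l).exp).add (Q.hasDerivAt s)
  have h2 : deriv (fun s => Real.exp (l * P.eval s) + Q.eval s) =
      fun s => Real.exp (l * P.eval s) * (l * (derivative P).eval s) + (derivative Q).eval s := by
    ext s; exact (h1 s).deriv
  rw [h2]
  have h3 : HasDerivAt (fun s => Real.exp (l * P.eval s) * (l * (derivative P).eval s) +
      (derivative Q).eval s)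
      ((Real.exp (l * P.eval 0) * (l * (derivative P).eval 0)) * (l * (derivative P).eval 0) +
        Real.exp (l * P.eval 0) * (l * (derivative (derivative P)).eval 0) +
        (derivative (derivative Q)).eval 0) 0 := by
    exact ((((P.hasDerivAt 0).const_mul l).exp).mul
      (((derivative P).hasDerivAt 0).const_mul l)).add ((derivative Q).hasDerivAt 0)
  rw [h3.deriv]
  ring

/-- the defining function -/
noncomputable def psi (K e : ℝ) (p : V12) : ℝ :=
  Real.exp (5000 * Th (e * p 0) (p 1) (tt p)) + K * (e * p 0) ^ 4 - 1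

lemma psi_contDiff (K e : ℝ) {m : WithTop ℕ∞} : ContDiff ℝ m (psi K e) := by
  unfold psi Th qq tt; fun_prop

lemma D2_psi (K e : ℝ) (p v : V12) :
    D2 (psi K e) p v = 5000 * Real.exp (5000 * Th (e * p 0) (p 1) (tt p)) *
      (Th2 (e * p 0) (p 1) (tt p) (e * v 0) (v 1) (cc p v) (tt v) +
        5000 * Th1 (e * p 0) (p 1) (tt p) (e * v 0) (v 1) (cc p v) ^ 2) +
      12 * K * (e * p 0) ^ 2 * (e * v 0) ^ 2 := by
  have h := deriv2_exp 5000 (ThP (e * p 0) (p 1) (tt p) (e * v 0) (v 1) (cc p v) (tt v))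
    (C K * (C (e * p 0) + C (e * v 0) * X) ^ 4 - 1)
  have h2 : (fun s : ℝ => psi K e (p + s • v)) = fun s => Real.exp (5000 *
      (ThP (e * p 0) (p 1) (tt p) (e * v 0) (v 1) (cc p v) (tt v)).eval s) +
      (C K * (C (e * p 0) + C (e * v 0) * X) ^ 4 - 1 : ℝ[X]).eval s := by
    ext s
    rw [ThP_eval, psi, tt_line, zero_line, zero_line]
    simp only [eval_sub, eval_mul, eval_pow, eval_add, eval_C, eval_X, eval_one]
    have e1 : e * (p 0 + s * v 0) = e * p 0 + e * v 0 * s := by ring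
    have e2 : p 1 + s * v 1 = p 1 + v 1 * s := by ring
    rw [e1, e2]
    ring
  rw [D2, h2, h, ThP_d1, ThP_d2, ThP_eval]
  have h3 : eval 0 (derivative (derivative (C K * (C (e * p 0) + C (e * v 0) * X) ^ 4 - 1)))
      = 12 * K * (e * p 0) ^ 2 * (e * v 0) ^ 2 := by
    simp only [derivative_add, derivative_sub, derivative_mul, derivative_pow,
      derivative_C, derivative_X, derivative_one, derivative_zero, eval_add, eval_sub, eval_mul,
      eval_pow, eval_C, eval_X, eval_one, eval_zero]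
    norm_num
    ring
  rw [h3]
  simp

/-- the upper barrier -/
noncomputable def wup (τ0 x0 m c : ℝ) (p : V12) : ℝ :=
  Th τ0 (p 1) (tt p) + c + m / 2 * (p 0 - x0) ^ 2

lemma wup_contDiff (τ0 x0 m c : ℝ) {k : WithTop ℕ∞} : ContDiff ℝ k (wup τ0 x0 m c) := by
  unfold wup Th qq tt; fun_prop

/-- the entries of the Hessian of the barrier -/
noncomputable def P00 (τ b t : ℝ) : ℝ := 1 - 10 * τ + τ ^ 2 * (87.5 - 108 * b ^ 2 + 12.25 * t)
noncomputable def P11 (τ b : ℝ) : ℝ := 1 + τ + τ ^ 2 * (-4.75 + 12.25 * b ^ 2)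

lemma D2_wup (τ0 x0 m c : ℝ) (p v : V12) :
    D2 (wup τ0 x0 m c) p v = v.ofLp ⬝ᵥ (W m (P00 τ0 (p 1) (tt p)) (P11 τ0 (p 1))
      (fun i => 24.5 * τ0 ^ 2 * p 1 * p i.succ.succ) *ᵥ v.ofLp) := by
  have h2 : (fun s : ℝ => wup τ0 x0 m c (p + s • v)) = fun s =>
      (ThP τ0 (p 1) (tt p) 0 (v 1) (cc p v) (tt v) + C c +
        C (m / 2) * (C (p 0 - x0) + C (v 0) * X) ^ 2 : ℝ[X]).eval s := by
    ext s
    rw [wup, tt_line, zero_line, zero_line]
    simp only [ThP_eval, eval_mul, eval_pow, eval_add, eval_C, eval_X]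
    have e1 : τ0 + 0 * s = τ0 := by ring
    have e2 : p 1 + s * v 1 = p 1 + v 1 * s := by ring
    rw [e1, e2]
    ring
  rw [D2, h2, deriv2_poly, quad_W]
  have h3 : ∑ i : Fin 10, 24.5 * τ0 ^ 2 * p 1 * p i.succ.succ * v i.succ.succ =
      24.5 * τ0 ^ 2 * p 1 * cc p v := by
    rw [cc, Finset.mul_sum]
    apply Finset.sum_congr rfl
    intro i _; ring
  rw [h3]
  have h4 : ∑ i : Fin 10, v.ofLp i.succ.succ ^ 2 = tt v := rfl
  rw [h4, derivative_add, derivative_add, derivative_add, derivative_add, eval_add, eval_add,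
    ThP_d2]
  have h5 : eval 0 (derivative (derivative (C (m / 2) * (C (p 0 - x0) + C (v 0) * X) ^ 2)))
      = m * v 0 ^ 2 := by
    simp only [derivative_add, derivative_sub, derivative_mul, derivative_pow,
      derivative_C, derivative_X, derivative_one, derivative_zero, eval_add, eval_sub, eval_mul,
      eval_pow, eval_C, eval_X, eval_one, eval_zero]
    norm_num
    ring
  rw [h5]
  simp only [derivative_C, derivative_zero, eval_zero, Th2, q2, P00, P11]
  norm_num
  ring

/-- the lower barrier -/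
noncomputable def wlo (e c m : ℝ) (p : V12) : ℝ :=
  e / 2 * (p 1 ^ 2 + tt p - 1 - c) - m / 2 * p 0 ^ 2

lemma wlo_contDiff (e c m : ℝ) {k : WithTop ℕ∞} : ContDiff ℝ k (wlo e c m) := by
  unfold wlo tt; fun_prop

lemma D2_wlo (e c m : ℝ) (p v : V12) :
    D2 (wlo e c m) p v = v.ofLp ⬝ᵥ (W (-m) e e 0 *ᵥ v.ofLp) := by
  have h2 : (fun s : ℝ => wlo e c m (p + s • v)) = fun s =>
      (C (e / 2) * ((C (p 1) + C (v 1) * X) ^ 2 +
        (C (tt p) + C (2 * cc p v) * X + C (tt v) * X ^ 2) - 1 - C c) -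
        C (m / 2) * (C (p 0) + C (v 0) * X) ^ 2 : ℝ[X]).eval s := by
    ext s
    rw [wlo, tt_line, zero_line, zero_line]
    simp only [eval_mul, eval_pow, eval_add, eval_sub, eval_C, eval_X, eval_one]
    ring
  rw [D2, h2, deriv2_poly, quad_W]
  have h4 : ∑ i : Fin 10, v.ofLp i.succ.succ ^ 2 = tt v := rfl
  rw [h4]
  simp only [derivative_add, derivative_sub, derivative_mul, derivative_pow,
      derivative_C, derivative_X, derivative_one, derivative_zero, eval_add, eval_sub, eval_mul,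
      eval_pow, eval_C, eval_X, eval_one, eval_zero]
  simp
  ring

end Pool.Agent.P8H67.KH
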