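import Mathlib
import Pool.Agent.P8H67.KH.Theta

/-! Positivity of the second derivative of the defining function near `τ = 0`. -/

open Topology

namespace Pool.Agent.P8H67.KH

lemma two_mul_le_of_sq {X Y Z : ℝ} (hX : 0 ≤ X) (hY : 0 ≤ Y) (h : Z ^ 2 ≤ X * Y) :
    2 * Z ≤ X + Y := by
  have h1 : (2 * Z) ^ 2 ≤ (X + Y) ^ 2 := by nlinarith [sq_nonneg (X - Y)]
  exact (abs_le_of_sq_le_sq' h1 (by linarith)).2

lemma quad_nonneg {A B C X : ℝ} (hA : 0 ≤ A) (hC : 0 ≤ C) (h : B ^ 2 ≤ A * C) :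
    0 ≤ A * X ^ 2 + 2 * B * X + C := by
  have h1 : (-(B * X)) ^ 2 ≤ (A * X ^ 2) * C := by nlinarith [sq_nonneg X]
  have := two_mul_le_of_sq (by positivity) hC h1
  linarith

/-- the key scalar inequality -/
lemma star_ineq (s t : ℝ) (hs : 0 ≤ s) (ht : 0 ≤ t) (hst : s + t ≤ 1.0001) :
    0 < 5000 * ((10 * s - t) / 2) ^ 2 + (1 + 5000 * (s + t)) *
      (5.52 - 12.5 * s - 5.75 * t - 18 * s ^ 2 + 12.25 * s * t) := by
  have e : 5000 * ((10 * s - t) / 2) ^ 2 + (1 + 5000 * (s + t)) *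
      (5.52 - 12.5 * s - 5.75 * t - 18 * s ^ 2 + 12.25 * s * t) =
      (1 - (s + t)) * ((5.5 - 7 * s - t / 4) + 5000 * (5.5 * s + 5.5 * t + 18 * s ^ 2 -
        12.25 * s * t)) + 0.02 * (1 + 5000 * (s + t)) - ((10 * s - t) / 2) ^ 2 := by ring
  rw [e]
  have hst' : s * t ≤ (s + t) ^ 2 / 4 := by nlinarith [sq_nonneg (s - t)]
  have hr0 : 0 ≤ s + t := by linarith
  have hr2 : (s + t) ^ 2 ≤ 1.0001 * (s + t) := by nlinarith
  have hF : ((10 * s - t) / 2) ^ 2 ≤ 26 * (s + t) := by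
    have : ((10 * s - t) / 2) ^ 2 ≤ 25 * (s + t) ^ 2 := by nlinarith
    nlinarith
  have h1 : 2 * (s + t) ≤ 5.5 * s + 5.5 * t + 18 * s ^ 2 - 12.25 * s * t := by
    nlinarith [sq_nonneg s]
  rcases le_or_gt (s + t) 1 with h | h
  · have h2 : 0 ≤ (5.5 - 7 * s - t / 4) + 5000 * (5.5 * s + 5.5 * t + 18 * s ^ 2 -
        12.25 * s * t) := by linarith
    have h3 := mul_nonneg (by linarith : 0 ≤ 1 - (s + t)) h2
    linarith
  · have hst1 : 0 ≤ s * t := mul_nonneg hs ht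
    have hs2 : s ^ 2 ≤ 1.001 := by nlinarith
    have h4 : (5.5 - 7 * s - t / 4) + 5000 * (5.5 * s + 5.5 * t + 18 * s ^ 2 -
        12.25 * s * t) ≤ 120000 := by linarith
    have h5 : -12 ≤ (1 - (s + t)) * ((5.5 - 7 * s - t / 4) + 5000 * (5.5 * s + 5.5 * t +
        18 * s ^ 2 - 12.25 * s * t)) := by
      nlinarith
    linarith

lemma pos0 (b t θ β c ζ : ℝ) (ht : 0 ≤ t) (hbt : b ^ 2 + t ≤ 1.0001) (hζ : 0 ≤ ζ)
    (hc : c ^ 2 ≤ t * ζ) (hne : 0 < θ ^ 2 + β ^ 2 + ζ) :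
    0 < Th2 0 b t θ β c ζ + 5000 * Th1 0 b t θ β c ^ 2 := by
  have e2 : Th2 0 b t θ β c ζ = β ^ 2 + ζ - 2 * θ * (10 * b * β - c) + θ ^ 2 * qq b t := by
    unfold Th2; ring
  have e1 : Th1 0 b t θ β c = b * β + c - θ * (10 * b ^ 2 - t) / 2 := by
    unfold Th1; ring
  rw [e2, e1]
  set F := (10 * b ^ 2 - t) / 2 with hF
  set Q := qq b t - 100 * b ^ 2 - t with hQ
  set β' := β - 10 * θ * b with hβ'
  set c' := c + θ * t with hc'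
  set ζ' := ζ + 2 * θ * c + θ ^ 2 * t with hζ'
  have hζ0 : 0 ≤ ζ' := by
    have := quad_nonneg (A := t) (B := c) (C := ζ) (X := θ) ht hζ hc
    rw [hζ']; linarith
  have hcc : c' ^ 2 ≤ t * ζ' := by
    rw [hc', hζ']; nlinarith
  set N := β' ^ 2 + ζ' with hN
  have hN0 : 0 ≤ N := by positivity
  set u := b * β' + c' with hu
  set r := b ^ 2 + t with hr
  have hr0 : 0 ≤ r := by positivity
  have hu2 : u ^ 2 ≤ r * N := by
    have h1 : (b * β' * c') ^ 2 ≤ (b ^ 2 * ζ') * (t * β' ^ 2) := by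
      have : (b * β' * c') ^ 2 = b ^ 2 * β' ^ 2 * c' ^ 2 := by ring
      rw [this]
      have h2 := mul_le_mul_of_nonneg_left hcc (by positivity : 0 ≤ b ^ 2 * β' ^ 2)
      linarith
    have h3 := two_mul_le_of_sq (by positivity) (by positivity) h1
    rw [hu, hr, hN]
    nlinarith
  set x := u + θ * F with hx
  have h0 : 0 ≤ r * (5000 * x) ^ 2 + 2 * u * (5000 * x) + N :=
    quad_nonneg hr0 hN0 hu2
  have key : 5000 * (θ * F) ^ 2 ≤ (1 + 5000 * r) * (N + 5000 * x ^ 2) := by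
    have h1 : θ * F = x - u := by rw [hx]; ring
    rw [h1]
    nlinarith
  have eq : β ^ 2 + ζ - 2 * θ * (10 * b * β - c) + θ ^ 2 * qq b t +
      5000 * (b * β + c - θ * (10 * b ^ 2 - t) / 2) ^ 2 = N + 5000 * x ^ 2 + θ ^ 2 * Q := by
    rw [hN, hx, hu, hQ, hβ', hc', hζ', hF]; ring
  rw [eq]
  rcases eq_or_ne θ 0 with h | h
  · have : 0 < N := by
      rw [hN, hβ', hζ', h]
      rw [h] at hne
      simp at hne ⊢
      exact hne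
    rw [h, zero_pow two_ne_zero, zero_mul, add_zero]
    positivity
  · have hst := star_ineq (b ^ 2) t (sq_nonneg b) ht hbt
    have hQ' : Q = 5.52 - 12.5 * b ^ 2 - 5.75 * t - 18 * (b ^ 2) ^ 2 + 12.25 * b ^ 2 * t := by
      rw [hQ, qq]; ring
    rw [← hQ', ← hF, ← hr] at hst
    have h1 : 0 < θ ^ 2 := by positivity
    have h2 : 0 < (1 + 5000 * r) * (N + 5000 * x ^ 2 + θ ^ 2 * Q) := by
      have h3 := mul_pos h1 hst
      have h4 : (1 + 5000 * r) * (N + 5000 * x ^ 2 + θ ^ 2 * Q) =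
          (1 + 5000 * r) * (N + 5000 * x ^ 2) + (θ ^ 2 * (5000 * F ^ 2 + (1 + 5000 * r) * Q) -
            5000 * (θ * F) ^ 2) := by ring
      linarith
    exact (mul_pos_iff_of_pos_left (by positivity : 0 < 1 + 5000 * r)).1 h2

/-- the second derivative as a function of the parameters -/
noncomputable def HH (τ b t θ β c ζ : ℝ) : ℝ :=
  Th2 τ b t θ β c ζ + 5000 * Th1 τ b t θ β c ^ 2

lemma HH_scale (τ b t θ β c ζ μ : ℝ) :
    HH τ b t (μ * θ) (μ * β) (μ * c) (μ ^ 2 * ζ) = μ ^ 2 * HH τ b t θ β c ζ := by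
  unfold HH Th1 Th2 q1 q2; ring

/-- positivity persists for small `τ` -/
lemma exists_tau2 : ∃ τ2 : ℝ, 0 < τ2 ∧ ∀ τ, |τ| ≤ τ2 → ∀ b t θ β c ζ : ℝ, 0 ≤ t →
    b ^ 2 + t ≤ 1.0001 → 0 ≤ ζ → c ^ 2 ≤ t * ζ → 0 < θ ^ 2 + β ^ 2 + ζ →
    0 < HH τ b t θ β c ζ := by
  set S : Set (ℝ × ℝ × ℝ × ℝ × ℝ × ℝ) := {x | 0 ≤ x.2.1 ∧ x.1 ^ 2 + x.2.1 ≤ 1.0001 ∧
    0 ≤ x.2.2.2.2.2 ∧ x.2.2.2.2.1 ^ 2 ≤ x.2.1 * x.2.2.2.2.2 ∧
    x.2.2.1 ^ 2 + x.2.2.2.1 ^ 2 + x.2.2.2.2.2 = 1} with hS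
  have hclosed : IsClosed S := by
    rw [hS]
    apply IsClosed.and
    · exact isClosed_le (by fun_prop) (by fun_prop)
    apply IsClosed.and
    · exact isClosed_le (by fun_prop) (by fun_prop)
    apply IsClosed.and
    · exact isClosed_le (by fun_prop) (by fun_prop)
    apply IsClosed.and
    · exact isClosed_le (by fun_prop) (by fun_prop)
    · exact isClosed_eq (by fun_prop) (by fun_prop)
  have hcomp : IsCompact S := by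
    apply IsCompact.of_isClosed_subset
      (isCompact_Icc (a := ((-2 : ℝ), (-2 : ℝ), (-2 : ℝ), (-2 : ℝ), (-2 : ℝ), (-2 : ℝ)))
        (b := ((2 : ℝ), (2 : ℝ), (2 : ℝ), (2 : ℝ), (2 : ℝ), (2 : ℝ)))) hclosed
    rintro ⟨b, t, θ, β, c, ζ⟩ ⟨h1, h2, h3, h4, h5⟩
    simp only at h1 h2 h3 h4 h5
    have hb : b ^ 2 ≤ 2 ^ 2 := by nlinarith
    have hθ : θ ^ 2 ≤ 2 ^ 2 := by nlinarith [sq_nonneg β]
    have hβ : β ^ 2 ≤ 2 ^ 2 := by nlinarith [sq_nonneg θ]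
    have ht : t ≤ 1.0001 := by nlinarith [sq_nonneg b]
    have hζ : ζ ≤ 1 := by nlinarith [sq_nonneg θ, sq_nonneg β]
    have hc : c ^ 2 ≤ 2 ^ 2 := by nlinarith
    have hb' := abs_le_of_sq_le_sq' hb (by norm_num)
    have hθ' := abs_le_of_sq_le_sq' hθ (by norm_num)
    have hβ' := abs_le_of_sq_le_sq' hβ (by norm_num)
    have hc' := abs_le_of_sq_le_sq' hc (by norm_num)
    refine ⟨⟨hb'.1, ?_, hθ'.1, hβ'.1, hc'.1, ?_⟩, ⟨hb'.2, ?_, hθ'.2, hβ'.2, hc'.2, ?_⟩⟩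
    · show (-2 : ℝ) ≤ t
      linarith
    · show (-2 : ℝ) ≤ ζ
      linarith
    · show t ≤ 2
      linarith
    · show ζ ≤ 2
      linarith
  set O : Set (ℝ × (ℝ × ℝ × ℝ × ℝ × ℝ × ℝ)) := {x | 0 < HH x.1 x.2.1 x.2.2.1 x.2.2.2.1
    x.2.2.2.2.1 x.2.2.2.2.2.1 x.2.2.2.2.2.2} with hO
  have hOo : IsOpen O := by
    rw [hO]
    apply isOpen_lt continuous_const
    unfold HH Th1 Th2 q1 q2 qq
    fun_prop
  have hsub : ({0} : Set ℝ) ×ˢ S ⊆ O := by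
    rintro ⟨τ, b, t, θ, β, c, ζ⟩ ⟨h0, h1, h2, h3, h4, h5⟩
    have h0' : τ = 0 := h0
    simp only at h1 h2 h3 h4 h5
    subst h0'
    exact pos0 b t θ β c ζ h1 h2 h3 h4 (by rw [h5]; norm_num)
  obtain ⟨U, V, hU, hV, hU0, hVS, hUV⟩ := generalized_tube_lemma isCompact_singleton hcomp hOo hsub
  have hUn : U ∈ 𝓝 (0 : ℝ) := hU.mem_nhds (hU0 rfl)
  obtain ⟨ε, hε, hball⟩ := Metric.mem_nhds_iff.1 hUn
  refine ⟨ε / 2, by positivity, ?_⟩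
  intro τ hτ b t θ β c ζ ht hbt hζ hc hpos
  have hτU : τ ∈ U := hball (by rw [Metric.mem_ball, dist_zero_right, Real.norm_eq_abs]; linarith)
  set μ := Real.sqrt (θ ^ 2 + β ^ 2 + ζ) with hμ
  have hμ0 : 0 < μ := Real.sqrt_pos.2 hpos
  have hμ2 : μ ^ 2 = θ ^ 2 + β ^ 2 + ζ := Real.sq_sqrt hpos.le
  have hμi : μ⁻¹ ^ 2 * μ ^ 2 = 1 := by field_simp
  have hmem : (b, t, μ⁻¹ * θ, μ⁻¹ * β, μ⁻¹ * c, μ⁻¹ ^ 2 * ζ) ∈ S := by
    refine ⟨ht, hbt, by positivity, ?_, ?_⟩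
    · show (μ⁻¹ * c) ^ 2 ≤ t * (μ⁻¹ ^ 2 * ζ)
      have := mul_le_mul_of_nonneg_left hc (sq_nonneg μ⁻¹)
      nlinarith
    · show (μ⁻¹ * θ) ^ 2 + (μ⁻¹ * β) ^ 2 + μ⁻¹ ^ 2 * ζ = 1
      rw [← hμi, hμ2]; ring
  have h6 : 0 < HH τ b t (μ⁻¹ * θ) (μ⁻¹ * β) (μ⁻¹ * c) (μ⁻¹ ^ 2 * ζ) :=
    hUV (Set.mk_mem_prod hτU (hVS hmem))
  rw [HH_scale] at h6
  exact (mul_pos_iff_of_pos_left (by positivity)).1 h6

end Pool.Agent.P8H67.KH
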