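import Mathlib
import Pool.Agent.P8H67.KH.Pos

/-! The convex domain. -/

open Topology Matrix

namespace Pool.Agent.P8H67.KH

/-- A bounded convex domain with smooth boundary all of whose principal curvatures are positive:
near each boundary point `p` the domain is `{ρ < 0}` for a smooth function `ρ` whose gradient does
not vanish at `p` and whose Hessian is positive definite on the tangent space. -/
structure IsSmoothUniformlyConvex {n : ℕ} (Ω : Set (EuclideanSpace ℝ (Fin n))) : Prop where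
  isOpen : IsOpen Ω
  nonempty : Ω.Nonempty
  isBounded : Bornology.IsBounded Ω
  convex : Convex ℝ Ω
  boundary : ∀ p ∈ frontier Ω, ∃ (U : Set (EuclideanSpace ℝ (Fin n)))
    (ρ : EuclideanSpace ℝ (Fin n) → ℝ), IsOpen U ∧ p ∈ U ∧ ContDiff ℝ (⊤ : ℕ∞) ρ ∧
    Ω ∩ U = {x ∈ U | ρ x < 0} ∧ fderiv ℝ ρ p ≠ 0 ∧
    ∀ v : EuclideanSpace ℝ (Fin n), v ≠ 0 → fderiv ℝ ρ p v = 0 →
      0 < v.ofLp ⬝ᵥ (hess ρ p *ᵥ v.ofLp)

section general

variable {n : ℕ} {f : EuclideanSpace ℝ (Fin n) → ℝ} {N : Set (EuclideanSpace ℝ (Fin n))}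

lemma D2_line (f : EuclideanSpace ℝ (Fin n) → ℝ) (x v : EuclideanSpace ℝ (Fin n)) (s : ℝ) :
    deriv (deriv (fun s : ℝ => f (x + s • v))) s = D2 f (x + s • v) v := by
  have h1 : (fun h : ℝ => f (x + s • v + h • v)) = fun h => (fun s : ℝ => f (x + s • v)) (s + h) := by
    ext h
    simp only
    rw [add_smul, add_assoc]
  rw [D2, h1]
  have h2 : deriv (fun h => (fun s : ℝ => f (x + s • v)) (s + h)) =
      fun h => deriv (fun s : ℝ => f (x + s • v)) (s + h) := by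
    ext h
    exact deriv_comp_const_add (f := fun s : ℝ => f (x + s • v)) s h
  rw [h2, deriv_comp_const_add, add_zero]

lemma convexOn_line (hf : ContDiff ℝ 2 f) (hN : Convex ℝ N)
    (h2 : ∀ p ∈ N, ∀ v : EuclideanSpace ℝ (Fin n), 0 ≤ D2 f p v)
    {x y : EuclideanSpace ℝ (Fin n)} (hx : x ∈ N) (hy : y ∈ N) :
    ConvexOn ℝ (Set.Icc (0 : ℝ) 1) (fun s : ℝ => f (x + s • (y - x))) := by
  have hc : ContDiff ℝ 2 (fun s : ℝ => f (x + s • (y - x))) := by fun_prop
  apply convexOn_of_deriv2_nonneg' (convex_Icc 0 1)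
  · exact (hc.differentiable (by norm_num)).differentiableOn
  · have := (contDiff_succ_iff_deriv (n := 1)).1 (by exact_mod_cast hc)
    exact (this.2.2.differentiable (by norm_num)).differentiableOn
  · intro s hs
    have h3 : (deriv^[2] fun s : ℝ => f (x + s • (y - x))) s =
        deriv (deriv (fun s : ℝ => f (x + s • (y - x)))) s := rfl
    rw [h3, D2_line]
    exact h2 _ (hN.add_smul_sub_mem hx hy hs) _

lemma convexOn_of_D2 (hf : ContDiff ℝ 2 f) (hN : Convex ℝ N)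
    (h2 : ∀ p ∈ N, ∀ v : EuclideanSpace ℝ (Fin n), 0 ≤ D2 f p v) : ConvexOn ℝ N f := by
  refine ⟨hN, fun x hx y hy a b ha hb hab => ?_⟩
  have h := (convexOn_line hf hN h2 hx hy).2 (Set.left_mem_Icc.2 zero_le_one)
    (Set.right_mem_Icc.2 zero_le_one) ha hb hab
  simp only [smul_eq_mul, mul_zero, zero_add, mul_one, zero_smul, add_zero, one_smul,
    add_sub_cancel] at h
  have e : x + b • (y - x) = a • x + b • y := by
    have : a = 1 - b := by linarith
    rw [this, smul_sub, sub_smul, one_smul]; abel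
  rw [e] at h
  simpa using h

lemma fderiv_ne_zero_of_convex (hf : ContDiff ℝ 2 f) (hN : Convex ℝ N)
    (h2 : ∀ p ∈ N, ∀ v : EuclideanSpace ℝ (Fin n), 0 ≤ D2 f p v)
    {x y : EuclideanSpace ℝ (Fin n)} (hx : x ∈ N) (hy : y ∈ N) (hfx : f x = 0) (hfy : f y < 0) :
    fderiv ℝ f x ≠ 0 := by
  intro h0
  have h := convexOn_line hf hN h2 hx hy
  have hl : HasDerivAt (fun s : ℝ => x + s • (y - x)) (y - x) 0 := by
    have := ((hasDerivAt_id (0 : ℝ)).smul_const (y - x)).const_add x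
    simpa using this
  have hd : HasDerivAt (fun s : ℝ => f (x + s • (y - x))) 0 0 := by
    have h1 : HasFDerivAt f (fderiv ℝ f x) (x + (0 : ℝ) • (y - x)) := by
      rw [zero_smul, add_zero]
      exact (hf.differentiable (by norm_num) x).hasFDerivAt
    have := h1.comp_hasDerivAt 0 hl
    rw [h0, _root_.zero_apply] at this
    exact this
  have h3 := h.le_slope_of_hasDerivAt (Set.left_mem_Icc.2 zero_le_one)
    (Set.right_mem_Icc.2 zero_le_one) zero_lt_one hd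
  rw [slope_def_field] at h3
  simp only [zero_smul, add_zero, one_smul, add_sub_cancel, sub_zero, div_one, hfx] at h3
  linarith

end general

lemma norm_sq_V12 (p : V12) : ‖p‖ ^ 2 = p 0 ^ 2 + p 1 ^ 2 + tt p := by
  rw [EuclideanSpace.real_norm_sq_eq, Fin.sum_univ_succ, Fin.sum_univ_succ, tt, add_assoc]
  rfl

/-- the slab of the ball cylinder -/
def NN (τ2 e : ℝ) : Set V12 := {p | |e * p 0| < τ2 ∧ p 1 ^ 2 + tt p < 1.0001}

/-- the domain -/
def Om (τ2 e : ℝ) : Set V12 := {p | p ∈ NN τ2 e ∧ psi (1 / τ2 ^ 4) e p < 0}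

lemma tt_convex (x y : V12) (a b : ℝ) (ha : 0 ≤ a) (hb : 0 ≤ b) (hab : a + b = 1) :
    tt (a • x + b • y) ≤ a * tt x + b * tt y := by
  simp only [tt, PiLp.add_apply, PiLp.smul_apply, smul_eq_mul]
  rw [Finset.mul_sum, Finset.mul_sum, ← Finset.sum_add_distrib]
  apply Finset.sum_le_sum
  intro i _
  have h1 : a = 1 - b := by linarith
  subst h1
  nlinarith [mul_nonneg ha hb, sq_nonneg (x i.succ.succ - y i.succ.succ)]

lemma NN_convex (τ2 e : ℝ) : Convex ℝ (NN τ2 e) := by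
  intro x hx y hy a b ha hb hab
  obtain ⟨hx1, hx2⟩ := hx
  obtain ⟨hy1, hy2⟩ := hy
  have h1 : a = 1 - b := by linarith
  constructor
  · have e1 : e * (a • x + b • y) 0 = a * (e * x 0) + b * (e * y 0) := by simp; ring
    rw [e1]
    have h3 : |a * (e * x 0) + b * (e * y 0)| ≤ a * |e * x 0| + b * |e * y 0| := by
      refine (abs_add_le _ _).trans ?_
      rw [abs_mul a, abs_mul b, abs_of_nonneg ha, abs_of_nonneg hb]
    rcases eq_or_lt_of_le ha with h0 | h0
    · have : b = 1 := by linarith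
      rw [← h0, this] at h3 ⊢
      simp only [zero_mul, zero_add, one_mul] at h3 ⊢
      exact hy1
    · have h5 : a * τ2 + b * τ2 = τ2 := by rw [← add_mul, hab, one_mul]
      linarith [mul_lt_mul_of_pos_left hx1 h0, mul_le_mul_of_nonneg_left hy1.le hb]
  · have h2 := tt_convex x y a b ha hb hab
    have h3 : (a • x + b • y) 1 ^ 2 ≤ a * x 1 ^ 2 + b * y 1 ^ 2 := by
      simp only [PiLp.add_apply, PiLp.smul_apply, smul_eq_mul]
      subst h1
      nlinarith [mul_nonneg ha hb, sq_nonneg (x 1 - y 1)]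
    rcases eq_or_lt_of_le ha with h0 | h0
    · have : b = 1 := by linarith
      rw [← h0, this]
      simpa using hy2
    · have h5 : a * (1.0001 : ℝ) + b * (1.0001 : ℝ) = 1.0001 := by rw [← add_mul, hab, one_mul]
      linarith [mul_lt_mul_of_pos_left hx2 h0, mul_le_mul_of_nonneg_left hy2.le hb]

lemma NN_isOpen (τ2 e : ℝ) : IsOpen (NN τ2 e) := by
  have h1 : IsOpen {p : V12 | |e * p 0| < τ2} :=
    isOpen_lt (by fun_prop) continuous_const
  have h2 : IsOpen {p : V12 | p 1 ^ 2 + tt p < 1.0001} := by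
    unfold tt
    exact isOpen_lt (by fun_prop) continuous_const
  exact h1.inter h2

lemma psi_continuous (K e : ℝ) : Continuous (psi K e) := (psi_contDiff K e (m := 0)).continuous

lemma Om_isOpen (τ2 e : ℝ) : IsOpen (Om τ2 e) :=
  (NN_isOpen τ2 e).inter (isOpen_lt (psi_continuous _ e) continuous_const)

lemma psi_zero (K e : ℝ) : psi K e 0 < 0 := by
  have h1 : Th (e * (0 : V12) 0) ((0 : V12) 1) (tt 0) = -1 / 2 := by
    simp [Th, tt]
  rw [psi, h1]
  have : Real.exp (5000 * (-1 / 2)) < 1 := by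
    rw [Real.exp_lt_one_iff]; norm_num
  simp
  linarith

lemma zero_mem_Om {τ2 e : ℝ} (h : 0 < τ2) : (0 : V12) ∈ Om τ2 e := by
  refine ⟨⟨by simpa using h, ?_⟩, psi_zero _ _⟩
  simp [tt]
  norm_num

lemma Om_isBounded {τ2 e : ℝ} (he : 0 < e) : Bornology.IsBounded (Om τ2 e) := by
  rw [isBounded_iff_forall_norm_le]
  refine ⟨τ2 / e + 2, ?_⟩
  rintro p ⟨⟨h1, h2⟩, -⟩
  have h3 := norm_sq_V12 p
  rw [abs_mul, abs_of_pos he] at h1
  have h4 : |p 0| < τ2 / e := by rw [lt_div_iff₀ he]; linarith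
  have h5 : p 0 ^ 2 ≤ (τ2 / e) ^ 2 := by
    rw [← sq_abs (p 0)]
    exact pow_le_pow_left₀ (abs_nonneg _) h4.le 2
  have h6 : 0 < τ2 / e := (abs_nonneg _).trans_lt h4
  have h7 : ‖p‖ ^ 2 ≤ (τ2 / e + 2) ^ 2 := by nlinarith
  exact (abs_le_of_sq_le_sq' h7 (by positivity)).2

/-- the standing assumption on `τ2` -/
def Good (τ2 : ℝ) : Prop := 0 < τ2 ∧ τ2 ≤ 1 / 100000000 ∧ ∀ τ, |τ| ≤ τ2 → ∀ b t θ β c ζ : ℝ, 0 ≤ t →
    b ^ 2 + t ≤ 1.0001 → 0 ≤ ζ → c ^ 2 ≤ t * ζ → 0 < θ ^ 2 + β ^ 2 + ζ →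
    0 < HH τ b t θ β c ζ

lemma exists_good : ∃ τ2, Good τ2 := by
  obtain ⟨τ2, h, h2⟩ := exists_tau2
  exact ⟨min τ2 (1 / 100000000), lt_min h (by norm_num), min_le_right _ _,
    fun τ hτ => h2 τ (hτ.trans (min_le_left _ _))⟩

lemma qq_bound {b t : ℝ} (ht : 0 ≤ t) (hbt : b ^ 2 + t ≤ 1.0001) : |qq b t| ≤ 200 := by
  have hb := sq_nonneg b
  have hb4 : b ^ 4 = b ^ 2 * b ^ 2 := by ring
  rw [abs_le, qq, hb4]
  set s := b ^ 2
  have h1 : s * s ≤ 1.001 := by nlinarith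
  have h2 : s * t ≤ 1.001 := by nlinarith
  have h3 : 0 ≤ s * s := mul_nonneg hb hb
  have h4 : 0 ≤ s * t := mul_nonneg hb ht
  constructor <;> nlinarith

lemma Th_lip {b t : ℝ} (ht : 0 ≤ t) (hbt : b ^ 2 + t ≤ 1.0001) {τ τ' : ℝ} (h1 : |τ| ≤ 1)
    (h2 : |τ'| ≤ 1) : |Th τ b t - Th τ' b t| ≤ 300 * |τ - τ'| := by
  have e : Th τ b t - Th τ' b t = (τ - τ') * (-(10 * b ^ 2 - t) / 2 + (τ + τ') / 2 * qq b t) := by
    unfold Th; ring
  rw [e, abs_mul, mul_comm]
  apply mul_le_mul_of_nonneg_right _ (abs_nonneg _)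
  have hq := qq_bound ht hbt
  have hb := sq_nonneg b
  have h3 : |(-(10 * b ^ 2 - t) / 2)| ≤ 10 := by
    rw [abs_le]; constructor <;> nlinarith
  have h4 : |(τ + τ') / 2 * qq b t| ≤ 1 * 200 := by
    rw [abs_mul]
    apply mul_le_mul _ hq (abs_nonneg _) (by norm_num)
    have := abs_add_le τ τ'
    rw [abs_div, abs_of_pos (by norm_num : (0 : ℝ) < 2)]
    linarith
  refine (abs_add_le _ _).trans ?_
  linarith

lemma D2_psi_pos {τ2 e : ℝ} (hg : Good τ2) (he : 0 < e) {p : V12} (hp : p ∈ NN τ2 e) {v : V12}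
    (hv : v ≠ 0) : 0 < D2 (psi (1 / τ2 ^ 4) e) p v := by
  obtain ⟨hp1, hp2⟩ := hp
  have h0 := hg.1
  rw [D2_psi]
  have h1 : 0 < (e * v 0) ^ 2 + v 1 ^ 2 + tt v := by
    have hn : 0 < ‖v‖ ^ 2 := by positivity
    rw [norm_sq_V12] at hn
    have ht := tt_nonneg v
    by_contra hcon
    push Not at hcon
    have h3 : (e * v 0) ^ 2 = 0 := by nlinarith [sq_nonneg (e * v 0), sq_nonneg (v 1)]
    have h4 : v 1 ^ 2 = 0 := by nlinarith [sq_nonneg (e * v 0), sq_nonneg (v 1)]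
    have h5 : tt v = 0 := by nlinarith [sq_nonneg (e * v 0), sq_nonneg (v 1)]
    have h6 : v 0 = 0 := by
      have := pow_eq_zero_iff (two_ne_zero) |>.1 h3
      rcases mul_eq_zero.1 this with h | h
      · exact absurd h he.ne'
      · exact h
    rw [h4, h5, h6] at hn
    simp at hn
  have h2 := hg.2.2 (e * p 0) hp1.le (p 1) (tt p) (e * v 0) (v 1) (cc p v) (tt v) (tt_nonneg p)
    hp2.le (tt_nonneg v) (cc_sq_le p v) h1
  unfold HH at h2
  have h3 : 0 ≤ 12 * (1 / τ2 ^ 4) * (e * p 0) ^ 2 * (e * v 0) ^ 2 := by positivity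
  have h4 := mul_pos (by positivity : 0 < 5000 * Real.exp (5000 * Th (e * p 0) (p 1) (tt p))) h2
  linarith

lemma D2_zero (f : V12 → ℝ) (p : V12) : D2 f p 0 = 0 := by
  simp [D2]

lemma D2_psi_nonneg {τ2 e : ℝ} (hg : Good τ2) (he : 0 < e) {p : V12} (hp : p ∈ NN τ2 e) (v : V12) :
    0 ≤ D2 (psi (1 / τ2 ^ 4) e) p v := by
  rcases eq_or_ne v 0 with h | h
  · rw [h, D2_zero]
  · exact (D2_psi_pos hg he hp h).le

lemma Om_convex {τ2 e : ℝ} (hg : Good τ2) (he : 0 < e) : Convex ℝ (Om τ2 e) :=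
  (convexOn_of_D2 (psi_contDiff _ e) (NN_convex τ2 e)
    (fun _ hp v => D2_psi_nonneg hg he hp v)).convex_lt 0

/-- description of the boundary -/
lemma Om_frontier {τ2 e : ℝ} (hg : Good τ2) {p : V12} (hp : p ∈ frontier (Om τ2 e)) :
    p ∈ NN τ2 e ∧ psi (1 / τ2 ^ 4) e p = 0 := by
  have h0 := hg.1
  rw [(Om_isOpen τ2 e).frontier_eq] at hp
  obtain ⟨hcl, hnot⟩ := hp
  have hsub : closure (Om τ2 e) ⊆ {p : V12 | |e * p 0| ≤ τ2 ∧ p 1 ^ 2 + tt p ≤ 1.0001 ∧
      psi (1 / τ2 ^ 4) e p ≤ 0} := by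
    apply closure_minimal
    · rintro q ⟨⟨h1, h2⟩, h3⟩
      exact ⟨h1.le, h2.le, h3.le⟩
    · have c1 : IsClosed {p : V12 | |e * p 0| ≤ τ2} := isClosed_le (by fun_prop) continuous_const
      have c2 : IsClosed {p : V12 | p 1 ^ 2 + tt p ≤ 1.0001} := by
        unfold tt; exact isClosed_le (by fun_prop) continuous_const
      have c3 : IsClosed {p : V12 | psi (1 / τ2 ^ 4) e p ≤ 0} :=
        isClosed_le (psi_continuous _ e) continuous_const
      exact c1.inter (c2.inter c3)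
  obtain ⟨h1, h2, h3⟩ := hsub hcl
  have hexp := Real.exp_pos (5000 * Th (e * p 0) (p 1) (tt p))
  have hN : p ∈ NN τ2 e := by
    constructor
    · refine lt_of_le_of_ne h1 fun heq => ?_
      have h4 : (e * p 0) ^ 4 = τ2 ^ 4 := by
        rw [← heq]
        have : |e * p 0| ^ 4 = (|e * p 0| ^ 2) ^ 2 := by ring
        rw [this, sq_abs]; ring
      rw [psi, h4] at h3
      have h5 : 1 / τ2 ^ 4 * τ2 ^ 4 = 1 := by field_simp
      rw [h5] at h3
      linarith
    · refine lt_of_le_of_ne h2 fun heq => ?_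
      have hlip := Th_lip (tt_nonneg p) h2 (τ := e * p 0) (τ' := 0)
        (h1.trans (hg.2.1.trans (by norm_num))) (by simp)
      have h6 : Th 0 (p 1) (tt p) = 0.00005 := by
        have : Th 0 (p 1) (tt p) = (p 1 ^ 2 + tt p - 1) / 2 := by unfold Th; ring
        rw [this, heq]; norm_num
      rw [sub_zero, h6] at hlip
      have h7 := (abs_le.1 hlip).1
      have h8 : |e * p 0| ≤ 1 / 100000000 := h1.trans hg.2.1
      have hpos : 0 < Th (e * p 0) (p 1) (tt p) := by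
        have : 300 * |e * p 0| ≤ 0.000003 := by linarith
        linarith
      have h9 : 1 < Real.exp (5000 * Th (e * p 0) (p 1) (tt p)) :=
        Real.one_lt_exp_iff.2 (by positivity)
      rw [psi] at h3
      have : 0 ≤ 1 / τ2 ^ 4 * (e * p 0) ^ 4 := by positivity
      linarith
  refine ⟨hN, ?_⟩
  by_contra hne
  exact hnot ⟨hN, lt_of_le_of_ne h3 hne⟩

lemma Om_smooth {τ2 e : ℝ} (hg : Good τ2) (he : 0 < e) : IsSmoothUniformlyConvex (Om τ2 e) where
  isOpen := Om_isOpen τ2 e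
  nonempty := ⟨0, zero_mem_Om hg.1⟩
  isBounded := Om_isBounded he
  convex := Om_convex hg he
  boundary := by
    intro p hp
    obtain ⟨hN, h0⟩ := Om_frontier hg hp
    refine ⟨NN τ2 e, psi (1 / τ2 ^ 4) e, NN_isOpen τ2 e, hN, psi_contDiff _ _, ?_, ?_, ?_⟩
    · ext x
      constructor
      · rintro ⟨h1, h2⟩; exact ⟨h2, h1.2⟩
      · rintro ⟨h1, h2⟩; exact ⟨⟨h1, h2⟩, h1⟩
    · have hz := zero_mem_Om (e := e) hg.1
      exact fderiv_ne_zero_of_convex (psi_contDiff _ e) (NN_convex τ2 e)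
        (fun _ hp v => D2_psi_nonneg hg he hp v) hN hz.1 h0 hz.2
    · intro v hv _
      rw [← quad_hess (psi_contDiff _ e).contDiffAt]
      exact D2_psi_pos hg he hN hv

end Pool.Agent.P8H67.KH
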