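import Mathlib
import Pool.Agent.P8H67.KH.Dom

/-! Barriers for the `11`-Hessian torsion problem on the domain `Om`. -/

open Topology Matrix

namespace Pool.Agent.P8H67.KH

/-- `k`-admissible classical solution of `S_k (D² u) = 1`, `u = 0` on the boundary -/
structure IsTorsion {n : ℕ} (k : ℕ) (Ω : Set (EuclideanSpace ℝ (Fin n)))
    (u : EuclideanSpace ℝ (Fin n) → ℝ) : Prop where
  contDiffOn : ContDiffOn ℝ 2 u Ω
  continuousOn : ContinuousOn u (closure Ω)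
  boundary : ∀ x ∈ frontier Ω, u x = 0
  admissible : ∀ x ∈ Ω, ∀ j, 1 ≤ j → j ≤ k → 0 < sig j (hess u x)
  equation : ∀ x ∈ Ω, sig k (hess u x) = 1

lemma pow_ten_le {x : ℝ} (hx : |x| ≤ 1) : |(1 + x) ^ 10 - (1 + 10 * x + 45 * x ^ 2)| ≤
    1000 * |x| ^ 3 := by
  have e : (1 + x) ^ 10 - (1 + 10 * x + 45 * x ^ 2) = x ^ 3 * (120 + 210 * x + 252 * x ^ 2 +
      210 * x ^ 3 + 120 * x ^ 4 + 45 * x ^ 5 + 10 * x ^ 6 + x ^ 7) := by ring
  rw [e, abs_mul, abs_pow, mul_comm]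
  apply mul_le_mul_of_nonneg_right _ (by positivity)
  have h2 : |x ^ 2| ≤ 1 := by rw [abs_pow]; exact pow_le_one₀ (abs_nonneg _) hx
  have h3 : |x ^ 3| ≤ 1 := by rw [abs_pow]; exact pow_le_one₀ (abs_nonneg _) hx
  have h4 : |x ^ 4| ≤ 1 := by rw [abs_pow]; exact pow_le_one₀ (abs_nonneg _) hx
  have h5 : |x ^ 5| ≤ 1 := by rw [abs_pow]; exact pow_le_one₀ (abs_nonneg _) hx
  have h6 : |x ^ 6| ≤ 1 := by rw [abs_pow]; exact pow_le_one₀ (abs_nonneg _) hx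
  have h7 : |x ^ 7| ≤ 1 := by rw [abs_pow]; exact pow_le_one₀ (abs_nonneg _) hx
  rw [abs_le] at hx h2 h3 h4 h5 h6 h7 ⊢
  constructor <;> linarith

lemma P11_bounds {τ b t : ℝ} (hτ : |τ| ≤ 1 / 100000000) (ht : 0 ≤ t) (hbt : b ^ 2 + t ≤ 1.0001) :
    0 < P11 τ b ∧ P11 τ b ≤ 1.001 ∧ P11 τ b ^ 10 ≤ 2 ∧ P11 τ b ^ 9 ≤ 2 ∧ P00 τ b t ≤ 2 ∧
    P00 τ b t * P11 τ b ^ 10 ≤ 1 - 0.4 * τ ^ 2 := by
  set s := b ^ 2 with hs
  have hs0 : 0 ≤ s := sq_nonneg b
  set g1 := -4.75 + 12.25 * s with hg1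
  set g0 := 87.5 - 108 * s + 12.25 * t with hg0
  have h1 : P11 τ b = 1 + (τ + τ ^ 2 * g1) := by rw [P11, ← hs, hg1]; ring
  have h0 : P00 τ b t = 1 - 10 * τ + τ ^ 2 * g0 := by rw [P00, ← hs, hg0]
  have hg1b : |g1| ≤ 8 := by rw [abs_le, hg1]; constructor <;> linarith
  have hg0b : |g0| ≤ 110 := by rw [abs_le, hg0]; constructor <;> linarith
  have hτ1 := abs_le.1 hτ
  have hτ2 : τ ^ 2 ≤ 1 / 100000000 * |τ| := by
    rw [← sq_abs, sq]; exact mul_le_mul_of_nonneg_right hτ (abs_nonneg _)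
  have hτ3 : |τ| ^ 3 ≤ 1 / 100000000 * τ ^ 2 := by
    have : |τ| ^ 3 = |τ| * |τ| ^ 2 := by ring
    rw [this, sq_abs]; exact mul_le_mul_of_nonneg_right hτ (sq_nonneg _)
  have hx : |τ + τ ^ 2 * g1| ≤ 2 * |τ| := by
    refine (abs_add_le _ _).trans ?_
    rw [abs_mul, abs_of_nonneg (sq_nonneg τ)]
    have := mul_le_mul hτ2 hg1b (abs_nonneg _) (by positivity)
    linarith [abs_nonneg τ]
  set x := τ + τ ^ 2 * g1 with hxdef
  have hx1 : |x| ≤ 1 / 10000000 := by linarith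
  have hx2 := abs_le.1 hx1
  have hP11 : 0 < P11 τ b := by rw [h1]; linarith
  have hP11' : P11 τ b ≤ 1.001 := by rw [h1]; linarith
  have hpow := pow_ten_le (x := x) (by linarith)
  have hx3 : |x| ^ 3 ≤ 8 * |τ| ^ 3 := by
    have := pow_le_pow_left₀ (abs_nonneg x) hx 3
    calc |x| ^ 3 ≤ (2 * |τ|) ^ 3 := this
      _ = 8 * |τ| ^ 3 := by ring
  have h10 : P11 τ b ^ 10 ≤ 2 := by
    have : P11 τ b ^ 10 ≤ 1.001 ^ 10 := pow_le_pow_left₀ hP11.le hP11' 10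
    refine this.trans (by norm_num)
  have h9 : P11 τ b ^ 9 ≤ 2 := by
    have : P11 τ b ^ 9 ≤ 1.001 ^ 9 := pow_le_pow_left₀ hP11.le hP11' 9
    refine this.trans (by norm_num)
  have hg0' := abs_le.1 hg0b
  have hg1' := abs_le.1 hg1b
  have hτsq : τ ^ 2 ≤ 1 / 100000000 := by
    linarith [abs_nonneg τ]
  have hP00a : |P00 τ b t - 1| ≤ 1 / 100000 := by
    have h8 : |τ ^ 2 * g0| ≤ 1 / 100000000 * 110 := by
      rw [abs_mul, abs_of_nonneg (sq_nonneg τ)]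
      exact mul_le_mul hτsq hg0b (abs_nonneg _) (by norm_num)
    have h9 := abs_le.1 h8
    rw [h0, abs_le]
    constructor <;> linarith
  have hP00b := abs_le.1 hP00a
  refine ⟨hP11, hP11', h10, h9, by linarith, ?_⟩
  -- the main expansion
  set E := P11 τ b ^ 10 - (1 + 10 * τ + (10 * g1 + 45) * τ ^ 2) with hE
  have hEb : |E| ≤ 9000 * |τ| ^ 3 := by
    have e1 : E = ((1 + x) ^ 10 - (1 + 10 * x + 45 * x ^ 2)) +
        (90 * τ ^ 3 * g1 + 45 * τ ^ 4 * g1 ^ 2) := by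
      rw [hE, h1, hxdef]; ring
    rw [e1]
    refine (abs_add_le _ _).trans ?_
    have e2 : |90 * τ ^ 3 * g1 + 45 * τ ^ 4 * g1 ^ 2| ≤ 721 * |τ| ^ 3 := by
      have e3 : 90 * τ ^ 3 * g1 + 45 * τ ^ 4 * g1 ^ 2 = τ ^ 3 * (90 * g1 + 45 * τ * g1 ^ 2) := by
        ring
      rw [e3, abs_mul, abs_pow, mul_comm]
      apply mul_le_mul_of_nonneg_right _ (by positivity)
      have hg12 : |g1| ^ 2 ≤ 8 ^ 2 := pow_le_pow_left₀ (abs_nonneg _) hg1b 2
      have h8 : |45 * τ * g1 ^ 2| ≤ 1 := by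
        rw [abs_mul, abs_mul, abs_pow]
        have h81 : |τ| * |g1| ^ 2 ≤ 1 / 100000000 * 8 ^ 2 :=
          mul_le_mul hτ hg12 (by positivity) (by norm_num)
        rw [abs_of_pos (by norm_num : (0 : ℝ) < 45)]
        linarith
      have h9 := abs_le.1 h8
      rw [abs_le]
      constructor <;> linarith
    have h10 := pow_nonneg (abs_nonneg τ) 3
    linarith
  have hmain : P00 τ b t * P11 τ b ^ 10 = 1 + τ ^ 2 * (g0 + 10 * g1 + 45 - 100) +
      τ ^ 3 * (10 * g0 - 10 * (10 * g1 + 45) + τ * g0 * (10 * g1 + 45)) + P00 τ b t * E := by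
    rw [hE, h0]; ring
  have h5 : τ ^ 3 * (10 * g0 - 10 * (10 * g1 + 45) + τ * g0 * (10 * g1 + 45)) ≤
      2400 * |τ| ^ 3 := by
    refine (le_abs_self _).trans ?_
    rw [abs_mul, abs_pow, mul_comm]
    apply mul_le_mul_of_nonneg_right _ (by positivity)
    have h6 : |g0 * (10 * g1 + 45)| ≤ 110 * 125 := by
      rw [abs_mul]
      apply mul_le_mul hg0b _ (abs_nonneg _) (by norm_num)
      rw [abs_le]; constructor <;> linarith
    have h7 : |τ * g0 * (10 * g1 + 45)| ≤ 1 := by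
      rw [mul_assoc, abs_mul]
      have := mul_le_mul hτ h6 (abs_nonneg _) (by norm_num)
      linarith
    have h8 := abs_le.1 h7
    rw [abs_le]; constructor <;> linarith
  have h6 : P00 τ b t * E ≤ 2 * (9000 * |τ| ^ 3) := by
    refine (le_abs_self _).trans ?_
    rw [abs_mul]
    apply mul_le_mul _ hEb (abs_nonneg _) (by norm_num)
    rw [abs_le]; constructor <;> linarith
  rw [hmain]
  have h7 : τ ^ 2 * (g0 + 10 * g1 + 45 - 100) ≤ τ ^ 2 * (-0.49) := by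
    apply mul_le_mul_of_nonneg_left _ (sq_nonneg _)
    rw [hg0, hg1]; linarith
  linarith [sq_nonneg τ]

lemma Th_ge {τ b t : ℝ} (ht : 0 ≤ t) (hbt : b ^ 2 + t ≤ 1.0001) (hτ : |τ| ≤ 1 / 1000) :
    -1 ≤ Th τ b t := by
  have h := Th_lip ht hbt (τ := τ) (τ' := 0) (hτ.trans (by norm_num)) (by simp)
  have h2 : Th 0 b t = (b ^ 2 + t - 1) / 2 := by unfold Th; ring
  rw [sub_zero, h2] at h
  have := (abs_le.1 h).1
  nlinarith [sq_nonneg b]

/-- on the boundary `Θ` is between `- K τ ^ 4` and `0` -/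
lemma Th_frontier {τ2 e : ℝ} (hg : Good τ2) {p : V12} (hp : p ∈ frontier (Om τ2 e)) :
    Th (e * p 0) (p 1) (tt p) ≤ 0 ∧
    (|e * p 0| ≤ τ2 / 2 → -(1 / τ2 ^ 4 * (e * p 0) ^ 4) ≤ Th (e * p 0) (p 1) (tt p)) := by
  obtain ⟨hN, h0⟩ := Om_frontier hg hp
  rw [psi] at h0
  have hτ2 := hg.1
  have hK : 0 ≤ 1 / τ2 ^ 4 * (e * p 0) ^ 4 := by positivity
  constructor
  · by_contra hcon
    push Not at hcon
    have : 1 < Real.exp (5000 * Th (e * p 0) (p 1) (tt p)) :=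
      Real.one_lt_exp_iff.2 (by positivity)
    linarith
  · intro h
    have h1 : (e * p 0) ^ 4 ≤ (τ2 / 2) ^ 4 := by
      have := pow_le_pow_left₀ (abs_nonneg _) h 4
      have e4 : |e * p 0| ^ 4 = (|e * p 0| ^ 2) ^ 2 := by ring
      rw [e4, sq_abs] at this
      calc (e * p 0) ^ 4 = ((e * p 0) ^ 2) ^ 2 := by ring
        _ ≤ _ := this
    have h2 : 1 / τ2 ^ 4 * (e * p 0) ^ 4 ≤ 1 / 16 := by
      have := mul_le_mul_of_nonneg_left h1 (by positivity : 0 ≤ 1 / τ2 ^ 4)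
      refine this.trans (le_of_eq ?_)
      field_simp
      norm_num
    set k := 1 / τ2 ^ 4 * (e * p 0) ^ 4 with hk
    by_contra hcon
    push Not at hcon
    have h3 : Real.exp (5000 * Th (e * p 0) (p 1) (tt p)) < Real.exp (-(5000 * k)) := by
      apply Real.exp_lt_exp.2; linarith
    have h4 : Real.exp (-(5000 * k)) ≤ 1 - k := by
      have h5 : Real.exp (-(5000 * k)) ≤ Real.exp (-(2 * k)) := by
        apply Real.exp_le_exp.2; linarith
      have h6 : 1 + 2 * k ≤ Real.exp (2 * k) := by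
        have := Real.add_one_le_exp (2 * k); linarith
      have h7 : Real.exp (-(2 * k)) ≤ (1 + 2 * k)⁻¹ := by
        rw [Real.exp_neg]
        exact inv_anti₀ (by positivity) h6
      have h8 : (1 + 2 * k)⁻¹ ≤ 1 - k := by
        rw [inv_le_iff_one_le_mul₀ (by positivity)]
        nlinarith
      linarith
    linarith

/-- the upper bound of the solution -/
lemma upper {τ2 e δ τ0 : ℝ} (hg : Good τ2) (he : 0 < e) (hδ : 0 < δ) (hτ0 : τ0 ≠ 0)
    (hd : |τ0| + δ ≤ τ2 / 2) (hm : 50 * (2 * e ^ 2 / δ ^ 2) < 0.4 * τ0 ^ 2)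
    {u : V12 → ℝ} (hu : IsTorsion 11 (Om τ2 e) u) {p : V12} (hp : p ∈ Om τ2 e)
    (hp0 : e * p 0 = τ0) :
    u p ≤ Th τ0 (p 1) (tt p) + (1 / τ2 ^ 4 * (|τ0| + δ) ^ 4 + 300 * δ) := by
  set c := 1 / τ2 ^ 4 * (|τ0| + δ) ^ 4 + 300 * δ with hc
  set m := 2 * e ^ 2 / δ ^ 2 with hmdef
  have hτ2 := hg.1
  have hτ2s := hg.2.1
  have hm0 : 0 < m := by positivity
  have hτ0s : |τ0| ≤ 1 / 100000000 := by linarith
  have hc0 : 0 ≤ c := by positivity
  have h := cmp_upper (k := 11) (by norm_num) (by norm_num) (Om_isOpen τ2 e) (Om_isBounded he)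
    hu.contDiffOn hu.continuousOn hu.boundary (fun x hx j h1 h2 => hu.admissible x hx j h1 h2)
    hu.equation (w := wup τ0 (τ0 / e) m c) (wup_contDiff _ _ _ _) ?_ ?_ p hp
  · rw [wup] at h
    have : p 0 - τ0 / e = 0 := by
      rw [← hp0]; field_simp; ring
    rw [this] at h
    linarith
  · intro x hx
    obtain ⟨⟨hN1, hN2⟩, h0⟩ := Om_frontier hg hx
    obtain ⟨hT1, hT2⟩ := Th_frontier hg hx
    rw [wup]
    rcases le_or_gt |e * x 0 - τ0| δ with hclose | hfar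
    · have h1 : |e * x 0| ≤ |τ0| + δ := by
        have := abs_add_le (e * x 0 - τ0) τ0
        rw [sub_add_cancel] at this; linarith
      have h2 := hT2 (h1.trans hd)
      have h3 : (e * x 0) ^ 4 ≤ (|τ0| + δ) ^ 4 := by
        have := pow_le_pow_left₀ (abs_nonneg _) h1 4
        have e4 : |e * x 0| ^ 4 = (|e * x 0| ^ 2) ^ 2 := by ring
        rw [e4, sq_abs] at this
        calc (e * x 0) ^ 4 = ((e * x 0) ^ 2) ^ 2 := by ring
          _ ≤ _ := this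
      have h4 := mul_le_mul_of_nonneg_left h3 (by positivity : 0 ≤ 1 / τ2 ^ 4)
      have h5 := Th_lip (tt_nonneg x) hN2.le (τ := e * x 0) (τ' := τ0)
        (h1.trans (by linarith)) (by linarith)
      have h6 := (abs_le.1 h5).2
      have h7 : 0 ≤ m / 2 * (x 0 - τ0 / e) ^ 2 := by positivity
      have h8 : 300 * |e * x 0 - τ0| ≤ 300 * δ := by linarith
      rw [hc]
      linarith
    · have h1 : -1 ≤ Th τ0 (x 1) (tt x) := Th_ge (tt_nonneg x) hN2.le (by linarith)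
      have h2 : 1 ≤ m / 2 * (x 0 - τ0 / e) ^ 2 := by
        have e1 : m / 2 * (x 0 - τ0 / e) ^ 2 = (e * x 0 - τ0) ^ 2 / δ ^ 2 := by
          rw [hmdef]; field_simp
        rw [e1, le_div_iff₀ (by positivity), one_mul, ← sq_abs (e * x 0 - τ0)]
        exact pow_le_pow_left₀ hδ.le hfar.le 2
      linarith
  · intro x hx
    obtain ⟨⟨hN1, hN2⟩, -⟩ := hx
    refine ⟨_, W_isHermitian _ _ _ _, ?_, D2_wup τ0 (τ0 / e) m c x⟩
    obtain ⟨h1, h2, h3, h4, h5, h6⟩ := P11_bounds hτ0s (tt_nonneg x) hN2.le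
    refine (sig_W_le _ _ _ _ hm0.le h1.le).trans_lt ?_
    have h7 : P00 τ0 (x 1) (tt x) * P11 τ0 (x 1) ^ 9 ≤ 2 * 2 := by
      apply mul_le_mul h5 h4 (by positivity) (by norm_num)
    have h8 : m * (P11 τ0 (x 1) ^ 10 + 10 * P00 τ0 (x 1) (tt x) * P11 τ0 (x 1) ^ 9) ≤ m * 50 := by
      apply mul_le_mul_of_nonneg_left _ hm0.le
      nlinarith
    linarith

/-- the lower bound of the solution -/
lemma lower {τ2 e δ : ℝ} (hg : Good τ2) (he : 0 < e) (hδ : 0 < δ)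
    (hd : δ ≤ 1) (hm : 11 * (2 * e ^ 2 / δ ^ 2) < δ) (hm' : 462 * (2 * e ^ 2 / δ ^ 2) < 1)
    {u : V12 → ℝ} (hu : IsTorsion 11 (Om τ2 e) u) {p : V12} (hp : p ∈ Om τ2 e)
    (hp0 : p 0 = 0) :
    (1 + δ) / 2 * (p 1 ^ 2 + tt p - 1 - 600 * δ) ≤ u p := by
  set m := 2 * e ^ 2 / δ ^ 2 with hmdef
  have hτ2 := hg.1
  have hτ2s := hg.2.1
  have hm0 : 0 < m := by positivity
  have h := cmp_lower (k := 11) (by norm_num) (by norm_num) (Om_isOpen τ2 e) (Om_isBounded he)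
    hu.contDiffOn hu.continuousOn hu.boundary
    hu.equation (w := wlo (1 + δ) (600 * δ) m) (wlo_contDiff _ _ _) ?_ ?_ p hp
  · rw [wlo, hp0] at h
    linarith
  · intro x hx
    obtain ⟨⟨hN1, hN2⟩, h0⟩ := Om_frontier hg hx
    obtain ⟨hT1, hT2⟩ := Th_frontier hg hx
    rw [wlo]
    rcases le_or_gt |e * x 0| δ with hclose | hfar
    · have h5 := Th_lip (tt_nonneg x) hN2.le (τ := e * x 0) (τ' := 0)
        (hclose.trans hd) (by simp)
      rw [sub_zero] at h5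
      have h6 := (abs_le.1 h5).1
      have h7 : Th 0 (x 1) (tt x) = (x 1 ^ 2 + tt x - 1) / 2 := by unfold Th; ring
      rw [h7] at h6
      have h8 : x 1 ^ 2 + tt x - 1 - 600 * δ ≤ 0 := by linarith
      have h9 : (1 + δ) / 2 * (x 1 ^ 2 + tt x - 1 - 600 * δ) ≤ 0 :=
        mul_nonpos_of_nonneg_of_nonpos (by positivity) h8
      have h10 : 0 ≤ m / 2 * x 0 ^ 2 := by positivity
      linarith
    · have h2 : 1 ≤ m / 2 * x 0 ^ 2 := by
        have e1 : m / 2 * x 0 ^ 2 = (e * x 0) ^ 2 / δ ^ 2 := by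
          rw [hmdef]; field_simp
        rw [e1, le_div_iff₀ (by positivity), one_mul, ← sq_abs (e * x 0)]
        exact pow_le_pow_left₀ hδ.le hfar.le 2
      have h3 : (1 + δ) / 2 * (x 1 ^ 2 + tt x - 1 - 600 * δ) ≤ (1 + δ) / 2 * 0.0001 :=
        mul_le_mul_of_nonneg_left (by linarith) (by positivity)
      linarith
  · intro x hx
    refine ⟨_, W_isHermitian _ _ _ _, sig_W_zero_pos m (1 + δ) (by linarith) hm0.le hm', ?_,
      D2_wlo _ _ _ x⟩
    rw [sig_W_zero_eleven]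
    have h1 : (1 : ℝ) ≤ (1 + δ) ^ 10 := one_le_pow₀ (by linarith)
    have h2 : (1 + δ) ^ 11 - 11 * m * (1 + δ) ^ 10 = (1 + δ) ^ 10 * (1 + δ - 11 * m) := by ring
    rw [h2]
    nlinarith

end Pool.Agent.P8H67.KH
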