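import Mathlib
import Pool.Agent.P8H67.KH.Bar

/-! The final contradiction. -/

open Topology Matrix

namespace Pool.Agent.P8H67.KH

lemma sqrt_gap {X0 Xp Xm : ℝ} (h0 : 0 ≤ X0) (hp : 0 ≤ Xp) (hm : 0 ≤ Xm)
    (h : ((Xp - Xm) / 2) ^ 2 < 4 * X0 * ((Xp + Xm) / 2 - X0)) :
    Real.sqrt X0 < Real.sqrt Xp / 2 + Real.sqrt Xm / 2 := by
  set a := Real.sqrt Xp
  set b := Real.sqrt Xm
  set c := Real.sqrt X0
  have ha : 0 ≤ a := Real.sqrt_nonneg _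
  have hb : 0 ≤ b := Real.sqrt_nonneg _
  have hc : 0 ≤ c := Real.sqrt_nonneg _
  have ha2 : a ^ 2 = Xp := Real.sq_sqrt hp
  have hb2 : b ^ 2 = Xm := Real.sq_sqrt hm
  have hc2 : c ^ 2 = X0 := Real.sq_sqrt h0
  have h1 : (2 * X0 - (Xp + Xm) / 2) ^ 2 < (a * b) ^ 2 := by
    rw [mul_pow, ha2, hb2]; nlinarith
  have h2 : 2 * X0 - (Xp + Xm) / 2 < a * b :=
    lt_of_pow_lt_pow_left₀ 2 (by positivity) h1
  have h3 : (2 * c) ^ 2 < (a + b) ^ 2 := by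
    have e : (a + b) ^ 2 = Xp + Xm + 2 * (a * b) := by rw [← ha2, ← hb2]; ring
    rw [e, mul_pow, hc2]; linarith
  have h4 := lt_of_pow_lt_pow_left₀ 2 (by positivity) h3
  linarith

lemma Th_axis (τ y : ℝ) : Th τ y 0 = (y ^ 2 - 1) / 2 - 5 * τ * y ^ 2 +
    τ ^ 2 / 2 * (5.52 + 87.5 * y ^ 2 - 18 * y ^ 4) := by
  unfold Th qq; ring

lemma Th_axis' (τ : ℝ) : Th τ (19 / 20 + 26 / 5 * τ) 0 = -0.04875 + 0.4275 * τ -
    0.96618125 * τ ^ 2 + 136.5494 * τ ^ 3 - 134.7944 * τ ^ 4 - 4808.7936 * τ ^ 5 -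
    6580.4544 * τ ^ 6 := by
  rw [Th_axis]; ring

lemma Th_axis_m (τ : ℝ) : Th (-τ) (19 / 20 - 26 / 5 * τ) 0 = -0.04875 - 0.4275 * τ -
    0.96618125 * τ ^ 2 - 136.5494 * τ ^ 3 - 134.7944 * τ ^ 4 + 4808.7936 * τ ^ 5 -
    6580.4544 * τ ^ 6 := by
  have := Th_axis' (-τ)
  have e : 19 / 20 + 26 / 5 * -τ = 19 / 20 - 26 / 5 * τ := by ring
  rw [e] at this
  rw [this]; ring

lemma final_num {τ κ : ℝ} (h0 : 0 < τ) (h1 : τ ≤ 1 / 1000000) (hκ0 : 0 ≤ κ)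
    (hκ : κ ≤ τ ^ 2 / 1000000) :
    Real.sqrt 0.04875 < Real.sqrt (-(Th τ (19 / 20 + 26 / 5 * τ) 0) - κ) / 2 +
      Real.sqrt (-(Th (-τ) (19 / 20 - 26 / 5 * τ) 0) - κ) / 2 := by
  have hτ2 : τ ^ 2 ≤ 1 / 1000000 * τ := by nlinarith
  have hτ3 : τ ^ 3 ≤ 1 / 1000000 * τ ^ 2 := by nlinarith [sq_nonneg τ]
  have hτ4 : τ ^ 4 ≤ 1 / 1000000 * τ ^ 3 := by
    have := pow_pos h0 3; nlinarith
  have hτ5 : τ ^ 5 ≤ 1 / 1000000 * τ ^ 4 := by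
    have := pow_pos h0 4; nlinarith
  have hτ6 : τ ^ 6 ≤ 1 / 1000000 * τ ^ 5 := by
    have := pow_pos h0 5; nlinarith
  have p2 := pow_pos h0 2
  have p3 := pow_pos h0 3
  have p4 := pow_pos h0 4
  have p5 := pow_pos h0 5
  have p6 := pow_pos h0 6
  rw [Th_axis', Th_axis_m]
  apply sqrt_gap (by norm_num)
  · linarith
  · linarith
  · have e1 : (-(-0.04875 + 0.4275 * τ - 0.96618125 * τ ^ 2 + 136.5494 * τ ^ 3 -
        134.7944 * τ ^ 4 - 4808.7936 * τ ^ 5 - 6580.4544 * τ ^ 6) - κ -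
        (-(-0.04875 - 0.4275 * τ - 0.96618125 * τ ^ 2 - 136.5494 * τ ^ 3 -
        134.7944 * τ ^ 4 + 4808.7936 * τ ^ 5 - 6580.4544 * τ ^ 6) - κ)) / 2 =
        -(τ * (0.4275 + (136.5494 * τ ^ 2 - 4808.7936 * τ ^ 4))) := by ring
    have e2 : (-(-0.04875 + 0.4275 * τ - 0.96618125 * τ ^ 2 + 136.5494 * τ ^ 3 -
        134.7944 * τ ^ 4 - 4808.7936 * τ ^ 5 - 6580.4544 * τ ^ 6) - κ +
        (-(-0.04875 - 0.4275 * τ - 0.96618125 * τ ^ 2 - 136.5494 * τ ^ 3 -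
        134.7944 * τ ^ 4 + 4808.7936 * τ ^ 5 - 6580.4544 * τ ^ 6) - κ)) / 2 - 0.04875 =
        0.96618125 * τ ^ 2 + 134.7944 * τ ^ 4 + 6580.4544 * τ ^ 6 - κ := by ring
    rw [e1, e2, neg_sq, mul_pow]
    have h3 : |136.5494 * τ ^ 2 - 4808.7936 * τ ^ 4| ≤ 1 / 10000 := by
      rw [abs_le]; constructor <;> linarith
    have h4 : (0.4275 + (136.5494 * τ ^ 2 - 4808.7936 * τ ^ 4)) ^ 2 ≤ 0.183 := by
      have h5 := abs_le.1 h3
      nlinarith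
    have h5 : τ ^ 2 * (0.4275 + (136.5494 * τ ^ 2 - 4808.7936 * τ ^ 4)) ^ 2 ≤ τ ^ 2 * 0.183 :=
      mul_le_mul_of_nonneg_left h4 p2.le
    linarith

/-- points of the plane of the first two coordinates -/
noncomputable def pt (a b : ℝ) : V12 :=
  WithLp.toLp 2 (Fin.cons a (Fin.cons b (fun _ : Fin 10 => (0 : ℝ))) : Fin 12 → ℝ)

lemma pt_zero (a b : ℝ) : pt a b 0 = a := rfl
lemma pt_one (a b : ℝ) : pt a b 1 = b := rfl
lemma tt_pt (a b : ℝ) : tt (pt a b) = 0 := by simp [tt, pt]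

lemma pt_mid (a b a' b' : ℝ) : (1 / 2 : ℝ) • pt a b + (1 / 2 : ℝ) • pt a' b' =
    pt ((a + a') / 2) ((b + b') / 2) := by
  ext i
  refine Fin.cases ?_ (fun i => ?_) i
  · simp [pt]; ring
  · refine Fin.cases ?_ (fun i => ?_) i
    · simp [pt]; ring
    · simp [pt]

lemma pt_mem {τ2 e a b : ℝ} (hg : Good τ2) (h1 : |e * a| ≤ τ2 ^ 2) (hb : b ^ 2 < 1.0001)
    (hT : Th (e * a) b 0 ≤ -0.01) : pt a b ∈ Om τ2 e := by
  have h0 := hg.1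
  have h00 := hg.2.1
  have h2 : τ2 ^ 2 < τ2 := by nlinarith
  refine ⟨⟨?_, ?_⟩, ?_⟩
  · rw [pt_zero]; linarith
  · rw [pt_one, tt_pt, add_zero]; exact hb
  · rw [psi, pt_zero, pt_one, tt_pt]
    have h3 : Real.exp (5000 * Th (e * a) b 0) ≤ 1 / 2 := by
      have h4 : Real.exp (5000 * Th (e * a) b 0) ≤ Real.exp (-(50 : ℝ)) := by
        apply Real.exp_le_exp.2; linarith
      have h5 : Real.exp (-(50 : ℝ)) ≤ (51 : ℝ)⁻¹ := by
        rw [Real.exp_neg]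
        apply inv_anti₀ (by norm_num)
        have := Real.add_one_le_exp (50 : ℝ); linarith
      refine h4.trans (h5.trans (by norm_num))
    have h6 : 1 / τ2 ^ 4 * (e * a) ^ 4 ≤ 1 / 4 := by
      have h7 : (e * a) ^ 4 ≤ (τ2 ^ 2) ^ 4 := by
        have := pow_le_pow_left₀ (abs_nonneg _) h1 4
        have e4 : |e * a| ^ 4 = (|e * a| ^ 2) ^ 2 := by ring
        rw [e4, sq_abs] at this
        calc (e * a) ^ 4 = ((e * a) ^ 2) ^ 2 := by ring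
          _ ≤ _ := this
      have h8 := mul_le_mul_of_nonneg_left h7 (by positivity : 0 ≤ 1 / τ2 ^ 4)
      have h9 : 1 / τ2 ^ 4 * (τ2 ^ 2) ^ 4 = τ2 ^ 4 := by field_simp
      have h10 : τ2 ^ 4 ≤ (1 / 100000000) ^ 4 := pow_le_pow_left₀ h0.le h00 4
      rw [h9] at h8
      refine h8.trans (h10.trans (by norm_num))
    linarith

/-- **Square-root convexity of the `k`-Hessian torsion function fails** (`n = 12`, `k = 11`). -/
theorem main : ∃ Ω : Set (EuclideanSpace ℝ (Fin 12)), IsSmoothUniformlyConvex Ω ∧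
    ∀ u, IsTorsion 11 Ω u → ¬ ConvexOn ℝ Ω (fun x => -Real.sqrt (-(u x))) := by
  obtain ⟨τ2, hg⟩ := exists_good
  have h0 := hg.1
  have h00 := hg.2.1
  set τ := τ2 ^ 3 with hτ
  have hτ0 : 0 < τ := by positivity
  have hτs : τ ≤ 1 / 1000000 := by
    have : τ ≤ (1 / 100000000) ^ 3 := pow_le_pow_left₀ h0.le h00 3
    refine this.trans (by norm_num)
  have hτ2 : τ < τ2 / 4 := by
    have : τ = τ2 * τ2 ^ 2 := by rw [hτ]; ring
    rw [this]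
    have h1 : τ2 ^ 2 ≤ (1 / 100000000) ^ 2 := pow_le_pow_left₀ h0.le h00 2
    nlinarith
  -- the auxiliary function of `δ`
  set Φ : ℝ → ℝ := fun δ =>
    Real.sqrt (-(Th τ (19 / 20 + 26 / 5 * τ) 0) - (1 / τ2 ^ 4 * (τ + δ) ^ 4 + 300 * δ)) / 2 +
    Real.sqrt (-(Th (-τ) (19 / 20 - 26 / 5 * τ) 0) - (1 / τ2 ^ 4 * (τ + δ) ^ 4 + 300 * δ)) / 2 -
    Real.sqrt ((1 + δ) / 2 * (0.0975 + 600 * δ)) with hΦ
  have hΦc : Continuous Φ := by rw [hΦ]; fun_prop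
  have hΦ0 : 0 < Φ 0 := by
    have hκ : 1 / τ2 ^ 4 * τ ^ 4 = τ ^ 2 * τ2 ^ 2 := by rw [hτ]; field_simp
    have h1 : τ2 ^ 2 ≤ (1 / 100000000) ^ 2 := pow_le_pow_left₀ h0.le h00 2
    have h := final_num hτ0 hτs (κ := 1 / τ2 ^ 4 * τ ^ 4) (by positivity) (by
      rw [hκ]
      have := mul_le_mul_of_nonneg_left h1 (sq_nonneg τ)
      refine this.trans ?_
      have := sq_nonneg τ
      linarith)
    rw [hΦ]
    simp only [add_zero, mul_zero]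
    have e : (1 : ℝ) / 2 * 0.0975 = 0.04875 := by norm_num
    rw [e]
    linarith
  obtain ⟨ε, hε, hball⟩ := Metric.eventually_nhds_iff.1
    (hΦc.continuousAt.eventually (lt_mem_nhds hΦ0))
  set δ := min (ε / 2) (τ2 / 8) with hδ
  have hδ0 : 0 < δ := by rw [hδ]; positivity
  have hδ1 : δ ≤ τ2 / 8 := min_le_right _ _
  have hΦδ : 0 < Φ δ := by
    apply hball
    rw [dist_zero_right, Real.norm_eq_abs, abs_of_pos hδ0]
    have : δ ≤ ε / 2 := min_le_left _ _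
    linarith
  have hδs : δ ≤ 1 / 100000000 := by linarith
  -- the slenderness
  set e := δ ^ 2 * τ / 100 with he
  have he0 : 0 < e := by positivity
  have hm : 2 * e ^ 2 / δ ^ 2 = δ ^ 2 * τ ^ 2 / 5000 := by
    rw [he]; field_simp; ring
  have hδ2 : δ ^ 2 ≤ δ := by nlinarith
  have hτ22 : τ ^ 2 ≤ 1 := by nlinarith
  have hm1 : 50 * (2 * e ^ 2 / δ ^ 2) < 0.4 * τ ^ 2 := by
    rw [hm]
    have : 0 < τ ^ 2 := by positivity
    nlinarith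
  have hm2 : 11 * (2 * e ^ 2 / δ ^ 2) < δ := by
    rw [hm]
    have h1 : δ ^ 2 * τ ^ 2 ≤ δ * 1 := mul_le_mul hδ2 hτ22 (sq_nonneg _) hδ0.le
    linarith
  have hm3 : 462 * (2 * e ^ 2 / δ ^ 2) < 1 := by
    rw [hm]
    have h1 : δ ^ 2 * τ ^ 2 ≤ δ * 1 := mul_le_mul hδ2 hτ22 (sq_nonneg _) hδ0.le
    linarith
  refine ⟨Om τ2 e, Om_smooth hg he0, ?_⟩
  intro u hu hconv
  -- the three points
  have hTp : Th τ (19 / 20 + 26 / 5 * τ) 0 ≤ -0.01 := by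
    rw [Th_axis']
    have hτ3 : τ ^ 3 ≤ τ := by nlinarith [sq_nonneg τ]
    have := pow_pos hτ0 2
    have := pow_pos hτ0 4
    have := pow_pos hτ0 5
    have := pow_pos hτ0 6
    linarith
  have hTm : Th (-τ) (19 / 20 - 26 / 5 * τ) 0 ≤ -0.01 := by
    rw [Th_axis_m]
    have hτ5 : τ ^ 5 ≤ τ := by
      have h1 : τ ^ 4 ≤ 1 := pow_le_one₀ hτ0.le (by linarith)
      have : τ ^ 5 = τ * τ ^ 4 := by ring
      rw [this]; nlinarith
    have := pow_pos hτ0 2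
    have := pow_pos hτ0 4
    have := pow_pos hτ0 3
    have := pow_pos hτ0 6
    linarith
  have hea : e * (τ / e) = τ := by field_simp
  have heb : e * (-(τ / e)) = -τ := by rw [mul_neg, hea]
  have hτle : τ ≤ τ2 ^ 2 := by
    rw [hτ]
    have : τ2 ^ 3 = τ2 ^ 2 * τ2 := by ring
    rw [this]
    have := sq_nonneg τ2
    nlinarith
  have hpp : pt (τ / e) (19 / 20 + 26 / 5 * τ) ∈ Om τ2 e := by
    apply pt_mem hg
    · rw [hea, abs_of_pos hτ0]; exact hτle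
    · nlinarith
    · rw [hea]; exact hTp
  have hpm : pt (-(τ / e)) (19 / 20 - 26 / 5 * τ) ∈ Om τ2 e := by
    apply pt_mem hg
    · rw [heb, abs_neg, abs_of_pos hτ0]; exact hτle
    · nlinarith
    · rw [heb]; exact hTm
  have hp0 : pt 0 (19 / 20) ∈ Om τ2 e := by
    apply pt_mem hg
    · simp; positivity
    · norm_num
    · rw [mul_zero, Th_axis]; norm_num
  have hmid : (1 / 2 : ℝ) • pt (τ / e) (19 / 20 + 26 / 5 * τ) +
      (1 / 2 : ℝ) • pt (-(τ / e)) (19 / 20 - 26 / 5 * τ) = pt 0 (19 / 20) := by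
    rw [pt_mid]
    congr 1 <;> ring
  have hc := hconv.2 hpp hpm (by norm_num : (0 : ℝ) ≤ 1 / 2) (by norm_num : (0 : ℝ) ≤ 1 / 2)
    (by norm_num)
  rw [hmid] at hc
  simp only [smul_eq_mul] at hc
  have hU1 := upper hg he0 hδ0 hτ0.ne' (by rw [abs_of_pos hτ0]; linarith) hm1 hu hpp hea
  have hU2 := upper hg he0 hδ0 (neg_ne_zero.2 hτ0.ne') (by rw [abs_neg, abs_of_pos hτ0]; linarith)
    (by rw [neg_sq]; exact hm1) hu hpm heb
  have hL := lower hg he0 hδ0 (by linarith) hm2 hm3 hu hp0 rfl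
  rw [abs_of_pos hτ0, pt_one, tt_pt] at hU1
  rw [abs_neg, abs_of_pos hτ0, pt_one, tt_pt] at hU2
  rw [pt_one, tt_pt] at hL
  have s1 : Real.sqrt (-(Th τ (19 / 20 + 26 / 5 * τ) 0) -
      (1 / τ2 ^ 4 * (τ + δ) ^ 4 + 300 * δ)) ≤
      Real.sqrt (-(u (pt (τ / e) (19 / 20 + 26 / 5 * τ)))) := Real.sqrt_le_sqrt (by linarith)
  have s2 : Real.sqrt (-(Th (-τ) (19 / 20 - 26 / 5 * τ) 0) -
      (1 / τ2 ^ 4 * (τ + δ) ^ 4 + 300 * δ)) ≤
      Real.sqrt (-(u (pt (-(τ / e)) (19 / 20 - 26 / 5 * τ)))) := Real.sqrt_le_sqrt (by linarith)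
  have s3 : Real.sqrt (-(u (pt 0 (19 / 20)))) ≤
      Real.sqrt ((1 + δ) / 2 * (0.0975 + 600 * δ)) := by
    apply Real.sqrt_le_sqrt
    have e1 : (1 + δ) / 2 * (0.0975 + 600 * δ) =
      -((1 + δ) / 2 * ((19 / 20) ^ 2 + 0 - 1 - 600 * δ)) := by ring
    rw [e1]; linarith
  rw [hΦ] at hΦδ
  simp only at hΦδ
  linarith

end Pool.Agent.P8H67.KH
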